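import Pool.Agent.helper63.CompStruct.Rank

/-!
Sanity checks for the definitions: not every ordinal is computable, `ω₁^CK` is not computable, and
every computable ordinal is smaller than `ω₁^CK`.
-/

namespace Pool.Agent.helper63.CompStruct

theorem countable_of_computable {α : Ordinal.{0}} (h : IsComputableOrdinal α) :
    α.card ≤ Cardinal.aleph0 := by
  obtain ⟨D, r, _, _, hwo, rfl⟩ := h
  rw [Ordinal.card_type]
  exact Cardinal.mk_le_aleph0

theorem exists_not_computable : ∃ α : Ordinal.{0}, ¬ IsComputableOrdinal α := by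
  refine ⟨(Cardinal.aleph 1).ord, fun h => ?_⟩
  have := countable_of_computable h
  rw [Cardinal.card_ord] at this
  exact absurd this (not_le.2 Cardinal.aleph0_lt_aleph_one)

theorem omega1CK_not_computable : ¬ IsComputableOrdinal omega1CK :=
  csInf_mem (s := {α : Ordinal.{0} | ¬ IsComputableOrdinal α}) exists_not_computable

theorem computable_of_lt {α β : Ordinal.{0}} (h : IsComputableOrdinal α) (hβ : β < α) :
    IsComputableOrdinal β := by
  obtain ⟨D, r, hD, hr, hwo, rfl⟩ := h
  obtain ⟨d, rfl⟩ := Ordinal.typein_surj (fun x y : D => r x y) hβ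
  refine ⟨{a | a ∈ D ∧ r a d}, r, ?_, hr, ?_⟩
  · refine computablePred_and hD ?_
    exact computablePred_comp (f := fun a : ℕ => (a, (d : ℕ))) hr
      (Computable.pair Computable.id (Computable.const _))
  · let s : D → D → Prop := fun x y => r x y
    have : IsWellOrder D s := hwo
    let f : ({a : ℕ | a ∈ D ∧ r a d} : Set ℕ) ≃ {x : D // s x d} :=
      { toFun := fun x => ⟨⟨x.1, x.2.1⟩, x.2.2⟩
        invFun := fun x => ⟨x.1, x.1.2, x.2⟩
        left_inv := fun x => rfl
        right_inv := fun x => rfl }
    have hiso : (fun x y : ({a : ℕ | a ∈ D ∧ r a d} : Set ℕ) => r x y) ≃r (Subrel s (s · d)) :=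
      { toEquiv := f
        map_rel_iff' := Iff.rfl }
    have hwo' : IsWellOrder ({a : ℕ | a ∈ D ∧ r a d} : Set ℕ) (fun x y => r x y) :=
      hiso.toRelEmbedding.isWellOrder
    exact ⟨hwo', Ordinal.type_eq.2 ⟨hiso⟩⟩

theorem lt_omega1CK {α : Ordinal.{0}} (h : IsComputableOrdinal α) : α < omega1CK := by
  rcases lt_trichotomy α omega1CK with h1 | h1 | h1
  · exact h1
  · exact absurd (h1 ▸ h) omega1CK_not_computable
  · exact absurd (computable_of_lt h h1) omega1CK_not_computable

end Pool.Agent.helper63.CompStruct
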