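import Pool.Agent.helper63.CompStruct.Model

/-!
Shifts of the structure and the back-and-forth argument.
-/

namespace Pool.Agent.helper63.CompStruct

open Nat.Partrec (Code)

/-- projection from level `M` to level `l ≤ M` -/
def pr (l : ℕ) : ℕ → ℕ → ℕ
  | 0, w => w
  | M + 1, w => if l = M + 1 then w else pr l M (Pi M w)

theorem pr_self (l w : ℕ) : pr l l w = w := by
  cases l with
  | zero => rfl
  | succ l => simp [pr]

theorem pr_succ {l M : ℕ} (h : l ≤ M) (w : ℕ) : pr l (M + 1) w = pr l M (Pi M w) := by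
  unfold pr
  rw [if_neg (by omega)]
  cases M <;> rfl

theorem Pi_pr {l M : ℕ} (h : l + 1 ≤ M) (w : ℕ) : Pi l (pr (l + 1) M w) = pr l M w := by
  induction M, h using Nat.le_induction generalizing w with
  | base => rw [pr_self, pr_succ (le_refl l), pr_self]
  | succ M hM ih => rw [pr_succ hM, pr_succ (by omega), ih]

theorem pr_xor {l M : ℕ} (h : l ≤ M) (v w : ℕ) : pr l M (v ^^^ w) = pr l M v ^^^ pr l M w := by
  induction M, h using Nat.le_induction generalizing v w with
  | base => rw [pr_self, pr_self, pr_self]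
  | succ M hM ih => rw [pr_succ hM, pr_succ hM, pr_succ hM, Pi_xor, ih]

theorem isVec_pr {l M : ℕ} (h : l ≤ M) {w : ℕ} (hw : isVec M w) : isVec l (pr l M w) := by
  induction M, h using Nat.le_induction generalizing w with
  | base => rwa [pr_self]
  | succ M hM ih => rw [pr_succ hM]; exact ih (isVec_Pi hw)

theorem pr_pr {l M N : ℕ} (h : l ≤ M) (h' : M ≤ N) (w : ℕ) :
    pr l M (pr M N w) = pr l N w := by
  induction N, h' using Nat.le_induction generalizing w with
  | base => rw [pr_self]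
  | succ N hN ih => rw [pr_succ hN, pr_succ (by omega), ih]

/-- the shift by the vector `h` of level `M` (of elements of level at most `M`) -/
def sh (M h x : ℕ) : ℕ := Nat.pair x.unpair.1 (x.unpair.2 ^^^ pr x.unpair.1 M h)

@[simp] theorem sh_fst (M h x : ℕ) : (sh M h x).unpair.1 = x.unpair.1 := by simp [sh]
@[simp] theorem sh_snd (M h x : ℕ) :
    (sh M h x).unpair.2 = x.unpair.2 ^^^ pr x.unpair.1 M h := by simp [sh]

theorem sh_sh (M h x : ℕ) : sh M h (sh M h x) = x := by
  unfold sh
  simp only [Nat.unpair_pair]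
  rw [Nat.xor_assoc, Nat.xor_self, Nat.xor_zero, Nat.pair_unpair]

theorem sh_dom {M h x : ℕ} (hh : isVec M h) (hx : x ∈ theA.dom) (hM : x.unpair.1 ≤ M) :
    sh M h x ∈ theA.dom := by
  rw [theA_dom] at *
  rw [sh_fst, sh_snd]
  exact isVec_xor hx (isVec_pr hM hh)

theorem sh_inj {M h x y : ℕ} : sh M h x = sh M h y ↔ x = y := by
  constructor
  · intro e
    rw [← sh_sh M h x, ← sh_sh M h y, e]
  · intro e
    rw [e]

theorem sh_relA {M h x y : ℕ} (hh : isVec M h) (hx : x.unpair.1 ≤ M) (hy : y.unpair.1 ≤ M)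
    (i : ℕ) (hr : relA i x y) : relA i (sh M h x) (sh M h y) := by
  rcases hr with ⟨h0, h1, h2, h3⟩ | ⟨h0, h1, h2, h3, h4, h5⟩
  · left
    rw [sh_fst, sh_fst, sh_snd, sh_snd]
    refine ⟨h0, isVec_xor h1 (isVec_pr hx hh), h2, ?_⟩
    rw [h2, Pi_xor, ← h3, Pi_pr (by omega)]
  · right
    rw [sh_fst, sh_fst, sh_snd, sh_snd]
    refine ⟨h0, isVec_xor h1 (isVec_pr hx hh), isVec_xor h2 (isVec_pr hy hh), h3, h4, ?_⟩
    rw [← h5, h3, h4]
    apply Nat.eq_of_testBit_eq
    intro i
    simp only [Nat.testBit_xor]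
    cases (x.unpair.2).testBit i <;> cases (y.unpair.2).testBit i <;>
      cases (pr (Nat.unpair (_ - 1)).1 M h).testBit i <;> rfl

theorem sh_relA_iff {M h x y : ℕ} (hh : isVec M h) (hx : x.unpair.1 ≤ M) (hy : y.unpair.1 ≤ M)
    (i : ℕ) : relA i (sh M h x) (sh M h y) ↔ relA i x y := by
  constructor
  · intro hr
    have := sh_relA hh (by simpa using hx) (by simpa using hy) i hr
    rwa [sh_sh, sh_sh] at this
  · exact sh_relA hh hx hy i

/-- rank of a vector, at least `α` (each unit of `α` allows arbitrarily many levels) -/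
def RG (α : Ordinal.{0}) (m v : ℕ) : Prop :=
  ∀ β, β < α → ∀ k, ∃ w, isVec (m + k) w ∧ pr m (m + k) w = v ∧ RG β (m + k) w
termination_by α

theorem RG_iff (α : Ordinal.{0}) (m v : ℕ) : RG α m v ↔
    ∀ β, β < α → ∀ k, ∃ w, isVec (m + k) w ∧ pr m (m + k) w = v ∧ RG β (m + k) w := by
  rw [RG]

theorem snoc_mem {m : ℕ} {D : Set ℕ} {v : Fin m → ℕ} {a : ℕ} (hv : ∀ j, v j ∈ D) (ha : a ∈ D)
    (j : Fin (m + 1)) : (Fin.snoc (α := fun _ => ℕ) v a : Fin (m + 1) → ℕ) j ∈ D := by
  refine Fin.lastCases ?_ (fun i => ?_) j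
  · rw [Fin.snoc_last]; exact ha
  · rw [Fin.snoc_castSucc]; exact hv i

theorem realize_exs {L : CLang} (A : Str L) : ∀ (k : ℕ) {n : ℕ} (ψ : Fml L (n + k))
    (v : Fin n → ℕ), (∀ j, v j ∈ A.dom) →
    (Realize A (exs k ψ) v ↔ ∃ v' : Fin (n + k) → ℕ, (∀ j, v' j ∈ A.dom) ∧
      (∀ j : Fin n, v' (Fin.castAdd k j) = v j) ∧ Realize A ψ v')
  | 0, n, ψ, v, hv => by
    constructor
    · intro h
      exact ⟨v, hv, fun _ => rfl, h⟩
    · rintro ⟨v', _, h, hr⟩
      have : v' = v := by
        funext j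
        exact h j
      rw [this] at hr
      exact hr
  | k + 1, n, ψ, v, hv => by
    have ih := realize_exs A k (n := n) (Fml.ex (n := n + k) ψ) v hv
    constructor
    · intro h
      obtain ⟨v', h1, h2, a, ha, h3⟩ := ih.1 h
      refine ⟨Fin.snoc (α := fun _ => ℕ) v' a, fun j => snoc_mem h1 ha j, ?_, h3⟩
      · intro j
        have e : Fin.castAdd (k + 1) j = Fin.castSucc (Fin.castAdd k j) := rfl
        rw [e, Fin.snoc_castSucc]
        exact h2 j
    · rintro ⟨v', h1, h2, h3⟩
      apply ih.2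
      refine ⟨fun j => v' (Fin.castSucc j), fun j => h1 _, fun j => h2 j,
        v' (Fin.last (n + k)), h1 _, ?_⟩
      have : (Fin.snoc (α := fun _ => ℕ) (fun j => v' (Fin.castSucc j)) (v' (Fin.last (n + k))) :
          Fin (n + k + 1) → ℕ) = v' := by
        funext j
        refine Fin.lastCases ?_ (fun i => ?_) j
        · rw [Fin.snoc_last]
        · rw [Fin.snoc_castSucc]
      rw [this]
      exact h3

theorem realize_alls {L : CLang} (A : Str L) : ∀ (k : ℕ) {n : ℕ} (ψ : Fml L (n + k))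
    (v : Fin n → ℕ), (∀ j, v j ∈ A.dom) →
    (Realize A (alls k ψ) v ↔ ∀ v' : Fin (n + k) → ℕ, (∀ j, v' j ∈ A.dom) →
      (∀ j : Fin n, v' (Fin.castAdd k j) = v j) → Realize A ψ v')
  | 0, n, ψ, v, hv => by
    constructor
    · intro h v' _ h'
      have : v' = v := by
        funext j
        exact h' j
      rw [this]
      exact h
    · intro h
      exact h v hv (fun _ => rfl)
  | k + 1, n, ψ, v, hv => by
    have ih := realize_alls A k (n := n) (Fml.all (n := n + k) ψ) v hv
    constructor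
    · intro h v' h1 h2
      have h3 := ih.1 h (fun j => v' (Fin.castSucc j)) (fun j => h1 _) (fun j => h2 j)
        (v' (Fin.last (n + k))) (h1 _)
      have : (Fin.snoc (α := fun _ => ℕ) (fun j => v' (Fin.castSucc j)) (v' (Fin.last (n + k))) :
          Fin (n + k + 1) → ℕ) = v' := by
        funext j
        refine Fin.lastCases ?_ (fun i => ?_) j
        · rw [Fin.snoc_last]
        · rw [Fin.snoc_castSucc]
      rw [this] at h3
      exact h3
    · intro h
      apply ih.2
      intro v' h1 h2 a ha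
      apply h
      · intro j
        exact snoc_mem h1 ha j
      · intro j
        have e : Fin.castAdd (k + 1) j = Fin.castSucc (Fin.castAdd k j) := rfl
        rw [e, Fin.snoc_castSucc]
        exact h2 j

/-- quantifier-free formulas are preserved by shifts -/
theorem qf_shift {n : ℕ} {φ : Fml theL n} (hφ : IsQF φ) {M h : ℕ} (hh : isVec M h)
    (v : Fin n → ℕ) (hl : ∀ j, (v j).unpair.1 ≤ M) :
    Realize theA φ (fun j => sh M h (v j)) ↔ Realize theA φ v := by
  induction hφ with
  | eq b j k =>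
    simp only [Realize]
    rw [sh_inj]
  | rel b i args =>
    obtain ⟨args', ha⟩ : ∃ args' : Fin 2 → Fin _, args' = args := ⟨args, rfl⟩
    have e : ∀ w : Fin _ → ℕ, Realize theA (Fml.rel (L := theL) b i args) w ↔
        (relA i (w (args' 0)) (w (args' 1)) ↔ b = true) := by
      intro w
      rw [← ha]
      show (theA.rel i (List.ofFn fun t : Fin 2 => w (args' t)) ↔ b = true) ↔ _
      have : (List.ofFn fun t : Fin 2 => w (args' t)) = [w (args' 0), w (args' 1)] := by
        simp [List.ofFn_succ]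
      rw [this, theA_rel]
    rw [e, e, sh_relA_iff hh (hl _) (hl _)]
  | conj S f _ _ ih =>
    simp only [Realize]
    exact forall₂_congr (fun i hi => ih i hi)
  | disj S f _ _ ih =>
    simp only [Realize]
    exact exists_congr (fun i => and_congr_right (fun hi => ih i hi))

/-- extension of shifts -/
theorem extend_shift {M h K : ℕ} {α β : Ordinal.{0}} (hR : RG α M h) (hβ : β < α) :
    ∃ h', isVec (M + K) h' ∧ RG β (M + K) h' ∧
      ∀ x : ℕ, x.unpair.1 ≤ M → sh (M + K) h' x = sh M h x := by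
  rw [RG_iff] at hR
  obtain ⟨h', h1, h2, h3⟩ := hR β hβ K
  refine ⟨h', h1, h3, ?_⟩
  intro x hx
  unfold sh
  rw [← pr_pr hx (Nat.le_add_right M K), h2]

/-- **Back-and-forth**: shifts of rank at least `α` preserve `Σ_α` and `Π_α` formulas. -/
theorem back_forth {b : Bool} {α : Ordinal.{0}} {n : ℕ} {φ : Fml theL n} (hφ : IsLevel b α φ) :
    ∀ (M h : ℕ), isVec M h → RG α M h → ∀ v : Fin n → ℕ, (∀ j, v j ∈ theA.dom) →
      (∀ j, (v j).unpair.1 ≤ M) → Realize theA φ v →
        Realize theA φ (fun j => sh M h (v j)) := by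
  induction hφ with
  | qf b α φ hq =>
    intro M h hh _ v _ hl hr
    exact (qf_shift hq hh v hl).2 hr
  | sigma α S f k ψ β hf hβ _ ih =>
    intro M h hh hR v hv hl hr
    simp only [Realize] at hr ⊢
    obtain ⟨i, hi, hr⟩ := hr
    refine ⟨i, hi, ?_⟩
    rw [hf i hi] at hr ⊢
    have hsv : ∀ j, sh M h (v j) ∈ theA.dom := fun j => sh_dom hh (hv j) (hl j)
    rw [realize_exs theA _ _ _ hv] at hr
    rw [realize_exs theA _ _ _ hsv]
    obtain ⟨v', h1, h2, h3⟩ := hr
    obtain ⟨K, hK⟩ : ∃ K, ∀ j, (v' j).unpair.1 ≤ M + K := by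
      refine ⟨∑ j, (v' j).unpair.1, fun j => ?_⟩
      have := Finset.single_le_sum (f := fun j => (v' j).unpair.1) (fun _ _ => Nat.zero_le _)
        (Finset.mem_univ j)
      exact le_trans this (Nat.le_add_left _ _)
    obtain ⟨h', hh', hR', hE⟩ := extend_shift (K := K) hR (hβ i hi)
    refine ⟨fun j => sh (M + K) h' (v' j), fun j => sh_dom hh' (h1 j) (hK j), ?_, ?_⟩
    · intro j
      show sh (M + K) h' (v' _) = _
      rw [h2 j, hE _ (hl j)]
    · exact ih i hi (M + K) h' hh' hR' v' h1 hK h3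
  | pi α S f k ψ β hf hβ _ ih =>
    intro M h hh hR v hv hl hr
    simp only [Realize] at hr ⊢
    intro i hi
    have hr := hr i hi
    rw [hf i hi] at hr ⊢
    have hsv : ∀ j, sh M h (v j) ∈ theA.dom := fun j => sh_dom hh (hv j) (hl j)
    rw [realize_alls theA _ _ _ hv] at hr
    rw [realize_alls theA _ _ _ hsv]
    intro v' h1 h2
    obtain ⟨K, hK⟩ : ∃ K, ∀ j, (v' j).unpair.1 ≤ M + K := by
      refine ⟨∑ j, (v' j).unpair.1, fun j => ?_⟩
      have := Finset.single_le_sum (f := fun j => (v' j).unpair.1) (fun _ _ => Nat.zero_le _)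
        (Finset.mem_univ j)
      exact le_trans this (Nat.le_add_left _ _)
    obtain ⟨h', hh', hR', hE⟩ := extend_shift (K := K) hR (hβ i hi)
    have h4 := hr (fun j => sh (M + K) h' (v' j)) (fun j => sh_dom hh' (h1 j) (hK j)) (by
      intro j
      show sh (M + K) h' (v' _) = _
      rw [h2 j, hE _ (by simpa using hl j), sh_sh])
    have h5 := ih i hi (M + K) h' hh' hR' _ (fun j => sh_dom hh' (h1 j) (hK j))
      (fun j => by simpa using hK j) h4
    simpa only [sh_sh] using h5

end Pool.Agent.helper63.CompStruct
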