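import Pool.Agent.helper63.CompStruct.Tower

/-!
Primitive recursiveness of the tower.
-/

namespace Pool.Agent.helper63.CompStruct

open Nat.Partrec (Code)
open Primrec

theorem primrec_pow : Primrec₂ ((· ^ ·) : ℕ → ℕ → ℕ) :=
  Primrec₂.unpaired'.1 Nat.Primrec.pow

theorem primrec_testBit : Primrec₂ (fun v c : ℕ => v.testBit c) := by
  have h : PrimrecRel (fun v c : ℕ => v / 2 ^ c % 2 = 1) :=
    Primrec.eq.comp
      (Primrec.nat_mod.comp
        (Primrec.nat_div.comp Primrec.fst (primrec_pow.comp (Primrec.const 2) Primrec.snd))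
        (Primrec.const 2)) (Primrec.const 1)
  refine (h.decide).of_eq ?_
  intro v c
  rw [Nat.testBit_eq_decide_div_mod_eq]

/-- number with prescribed binary digits below `N` -/
def ofBits (N : ℕ) (f : ℕ → Bool) : ℕ := Nat.rec 0 (fun c acc => acc + if f c then 2 ^ c else 0) N

theorem ofBits_succ (N : ℕ) (f : ℕ → Bool) :
    ofBits (N + 1) f = ofBits N f + if f N then 2 ^ N else 0 := rfl

theorem ofBits_lt (N : ℕ) (f : ℕ → Bool) : ofBits N f < 2 ^ N := by
  induction N with
  | zero => simp [ofBits]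
  | succ N ih =>
    rw [ofBits_succ, pow_succ]
    split_ifs <;> omega

theorem ofBits_testBit (N : ℕ) (f : ℕ → Bool) (i : ℕ) :
    (ofBits N f).testBit i = (decide (i < N) && f i) := by
  induction N with
  | zero => simp [ofBits]
  | succ N ih =>
    rw [ofBits_succ]
    by_cases hN : f N = true
    · rw [if_pos hN, add_comm]
      rcases lt_trichotomy i N with h | h | h
      · rw [Nat.testBit_two_pow_add_gt h, ih]
        simp [h, Nat.lt_succ_of_lt h]
      · subst h
        rw [Nat.testBit_two_pow_add_eq, ih]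
        simp [hN]
      · have h1 : 2 ^ N + ofBits N f < 2 ^ i := by
          have h2 := ofBits_lt N f
          have h3 : 2 ^ (N + 1) ≤ 2 ^ i := Nat.pow_le_pow_right (by norm_num) h
          rw [pow_succ] at h3
          omega
        rw [Nat.testBit_lt_two_pow h1]
        have : ¬ i < N + 1 := by omega
        simp [this]
    · rw [if_neg hN, add_zero, ih]
      rcases lt_trichotomy i N with h | h | h
      · simp [h, Nat.lt_succ_of_lt h]
      · subst h
        simp [hN]
      · have h1 : ¬ i < N := by omega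
        have h2 : ¬ i < N + 1 := by omega
        simp [h1, h2]

theorem primrec_xor : Primrec₂ (fun v w : ℕ => v ^^^ w) := by
  have h : Primrec₂ (fun v w : ℕ => ofBits (v + w) (fun c => (v.testBit c).xor (w.testBit c))) := by
    unfold ofBits
    refine Primrec.nat_rec' (f := fun p : ℕ × ℕ => p.1 + p.2) (g := fun _ => 0)
      (h := fun (p : ℕ × ℕ) (q : ℕ × ℕ) =>
        q.2 + if (p.1.testBit q.1).xor (p.2.testBit q.1) then 2 ^ q.1 else 0)
      (Primrec.nat_add.comp Primrec.fst Primrec.snd) (Primrec.const 0) ?_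
    refine Primrec.nat_add.comp (Primrec.snd.comp Primrec.snd) ?_
    have hb : Primrec (fun a : (ℕ × ℕ) × (ℕ × ℕ) =>
        (a.1.1.testBit a.2.1).xor (a.1.2.testBit a.2.1)) := by
      refine (Primrec.dom_bool₂ Bool.xor).comp ?_ ?_
      · exact primrec_testBit.comp (Primrec.fst.comp Primrec.fst) (Primrec.fst.comp Primrec.snd)
      · exact primrec_testBit.comp (Primrec.snd.comp Primrec.fst) (Primrec.fst.comp Primrec.snd)
    refine Primrec.ite (Primrec.eq.comp hb (Primrec.const true)) ?_ (Primrec.const 0)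
    exact primrec_pow.comp (Primrec.const 2) (Primrec.fst.comp Primrec.snd)
  refine h.of_eq ?_
  intro v w
  apply Nat.eq_of_testBit_eq
  intro i
  rw [ofBits_testBit, Nat.testBit_xor]
  by_cases hi : i < v + w
  · simp [hi]
  · rw [testBit_false_of_le (by omega : v ≤ i), testBit_false_of_le (by omega : w ≤ i)]
    simp

theorem primrec_xs {α : Type*} [Primcodable α] {N : α → ℕ} {f : α → ℕ → ℕ} (hN : Primrec N)
    (hf : Primrec₂ f) : Primrec (fun a => xs (N a) (f a)) := by
  unfold xs
  refine Primrec.nat_rec' (f := N) (g := fun _ => 0)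
    (h := fun (a : α) (q : ℕ × ℕ) => q.2 ^^^ f a q.1) hN (Primrec.const 0) ?_
  exact primrec_xor.comp (Primrec.snd.comp Primrec.snd)
    (hf.comp Primrec.fst (Primrec.fst.comp Primrec.snd))

theorem primrec_lin {α : Type*} [Primcodable α] {v : α → ℕ} {g : α → ℕ → ℕ} (hv : Primrec v)
    (hg : Primrec₂ g) : Primrec (fun a => lin (g a) (v a)) := by
  unfold lin
  refine primrec_xs hv ?_
  refine Primrec.ite ?_ (hg.comp Primrec.fst Primrec.snd) (Primrec.const 0)
  exact Primrec.eq.comp (primrec_testBit.comp (hv.comp Primrec.fst) Primrec.snd)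
    (Primrec.const true)

theorem primrec_hd : Primrec hd := Primrec.fst.comp Primrec.unpair
theorem primrec_tl : Primrec tl := Primrec.snd.comp Primrec.unpair

theorem primrec_tl_iter : Primrec₂ (fun m c : ℕ => tl^[m] c) :=
  Primrec.nat_iterate Primrec.fst Primrec.snd (primrec_tl.comp Primrec.snd)

theorem primrec_bas : Primrec₂ bas :=
  primrec_tl_iter.comp (Primrec.succ.comp Primrec.fst) Primrec.snd

theorem primrec_prog : Primrec prog := Primrec.ofNat Code

theorem primrec_evaln {α : Type*} [Primcodable α] {s : α → ℕ} {c : α → Code} {n : α → ℕ}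
    (hs : Primrec s) (hc : Primrec c) (hn : Primrec n) :
    Primrec (fun a => Code.evaln (s a) (c a) (n a)) :=
  Code.primrec_evaln.comp (Primrec.pair (Primrec.pair hs hc) hn)

theorem primrec_good : PrimrecPred (fun q : (ℕ × ℕ) × ℕ => good q.1.1 q.1.2 q.2) := by
  -- `good e i s` iff the value exists and is below `s`
  have h : PrimrecPred (fun q : (ℕ × ℕ) × ℕ =>
      (Code.evaln q.2 (prog q.1.1) q.1.2).isSome = true ∧
        (Code.evaln q.2 (prog q.1.1) q.1.2).getD 0 < q.2) := by
    have he : Primrec (fun q : (ℕ × ℕ) × ℕ => Code.evaln q.2 (prog q.1.1) q.1.2) :=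
      primrec_evaln Primrec.snd (primrec_prog.comp (Primrec.fst.comp Primrec.fst))
        (Primrec.snd.comp Primrec.fst)
    refine PrimrecPred.and ?_ ?_
    · exact Primrec.eq.comp (Primrec.option_isSome.comp he) (Primrec.const true)
    · exact Primrec.nat_lt.comp (Primrec.option_getD.comp he (Primrec.const 0)) Primrec.snd
  refine h.of_eq ?_
  rintro ⟨⟨e, i⟩, s⟩
  simp only [good]
  cases h : Code.evaln s (prog e) i <;> simp

theorem primrec_goodMin : PrimrecPred (fun q : (ℕ × ℕ) × ℕ => goodMin q.1.1 q.1.2 q.2) := by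
  unfold goodMin
  refine PrimrecPred.and primrec_good ?_
  -- bounded quantifier with coded parameters
  have h : PrimrecRel (fun t y : ℕ => ¬ good y.unpair.1 y.unpair.2 t) := by
    have hf : Primrec (fun p : ℕ × ℕ => ((p.2.unpair.1, p.2.unpair.2), p.1)) :=
      Primrec.pair (Primrec.pair (Primrec.fst.comp (Primrec.unpair.comp Primrec.snd))
        (Primrec.snd.comp (Primrec.unpair.comp Primrec.snd))) Primrec.fst
    exact (primrec_good.comp hf).not
  have h2 := PrimrecRel.forall_lt h
  have h3 : PrimrecPred (fun q : (ℕ × ℕ) × ℕ => ∀ t < q.2,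
      ¬ good (Nat.pair q.1.1 q.1.2).unpair.1 (Nat.pair q.1.1 q.1.2).unpair.2 t) :=
    h2.comp Primrec.snd (Primrec₂.natPair.comp (Primrec.fst.comp Primrec.fst)
      (Primrec.snd.comp Primrec.fst))
  refine h3.of_eq ?_
  rintro ⟨⟨e, i⟩, s⟩
  simp

theorem primrec_cnd : PrimrecPred (fun q : (ℕ × ℕ) × ℕ => cnd q.1.1 q.1.2 q.2) := by
  unfold cnd
  have hk : Primrec (fun q : (ℕ × ℕ) × ℕ => q.1.1) := Primrec.fst.comp Primrec.fst
  have hi : Primrec (fun q : (ℕ × ℕ) × ℕ => q.1.2) := Primrec.snd.comp Primrec.fst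
  have hc : Primrec (fun q : (ℕ × ℕ) × ℕ => q.2) := Primrec.snd
  have hk2 : Primrec (fun q : (ℕ × ℕ) × ℕ => q.1.1 / 2) :=
    Primrec.nat_div.comp hk (Primrec.const 2)
  have hkm : Primrec (fun q : (ℕ × ℕ) × ℕ => q.1.1 % 2) :=
    Primrec.nat_mod.comp hk (Primrec.const 2)
  have hhd : Primrec (fun q : (ℕ × ℕ) × ℕ => hd q.2) := primrec_hd.comp hc
  refine PrimrecPred.or (PrimrecPred.and ?_ ?_) (PrimrecPred.and ?_ (PrimrecPred.or ?_ ?_))
  · exact Primrec.eq.comp hkm (Primrec.const 1)
  · exact primrec_goodMin.comp (Primrec.pair (Primrec.pair hk2 hi) hhd)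
  · exact Primrec.eq.comp hkm (Primrec.const 0)
  · exact Primrec.eq.comp hi (Primrec.const 0)
  · refine Primrec.eq.comp (Primrec.option_isSome.comp ?_) (Primrec.const true)
    refine primrec_evaln ?_ (primrec_prog.comp hk2) ?_
    · exact Primrec.snd.comp (Primrec.unpair.comp hhd)
    · exact Primrec₂.natPair.comp (Primrec.fst.comp (Primrec.unpair.comp hhd))
        (Primrec.fst.comp (Primrec.unpair.comp (primrec_hd.comp (primrec_tl.comp hc))))

theorem primrec_valid : PrimrecRel valid := by
  unfold valid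
  have h : PrimrecRel (fun i y : ℕ => cnd (bas y.unpair.1 y.unpair.2) i
      (tl^[y.unpair.1 - i] y.unpair.2)) := by
    have h1 : Primrec (fun p : ℕ × ℕ => p.2.unpair.1) :=
      Primrec.fst.comp (Primrec.unpair.comp Primrec.snd)
    have h2 : Primrec (fun p : ℕ × ℕ => p.2.unpair.2) :=
      Primrec.snd.comp (Primrec.unpair.comp Primrec.snd)
    have hf : Primrec (fun p : ℕ × ℕ => ((bas p.2.unpair.1 p.2.unpair.2, p.1),
        tl^[p.2.unpair.1 - p.1] p.2.unpair.2)) :=
      Primrec.pair (Primrec.pair (primrec_bas.comp h1 h2) Primrec.fst)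
        (primrec_tl_iter.comp (Primrec.nat_sub.comp h1 Primrec.fst) h2)
    exact primrec_cnd.comp hf
  have h2 := PrimrecRel.forall_lt h
  have h3 : PrimrecPred (fun q : ℕ × ℕ => ∀ i < q.1 + 1,
      cnd (bas (Nat.pair q.1 q.2).unpair.1 (Nat.pair q.1 q.2).unpair.2) i
      (tl^[(Nat.pair q.1 q.2).unpair.1 - i] (Nat.pair q.1 q.2).unpair.2)) :=
    h2.comp (Primrec.succ.comp Primrec.fst) (Primrec₂.natPair.comp Primrec.fst Primrec.snd)
  refine h3.of_eq ?_
  rintro ⟨m, c⟩
  simp

theorem primrec_isVec : PrimrecRel isVec := by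
  unfold isVec
  have h : PrimrecRel (fun c y : ℕ => y.unpair.2.testBit c = true → valid y.unpair.1 c) := by
    have h1 : Primrec (fun p : ℕ × ℕ => p.2.unpair.1) :=
      Primrec.fst.comp (Primrec.unpair.comp Primrec.snd)
    have h2 : Primrec (fun p : ℕ × ℕ => p.2.unpair.2) :=
      Primrec.snd.comp (Primrec.unpair.comp Primrec.snd)
    have h3 : PrimrecPred (fun p : ℕ × ℕ => ¬ (p.2.unpair.2.testBit p.1 = true) ∨
        valid p.2.unpair.1 p.1) := by
      refine PrimrecPred.or (PrimrecPred.not ?_) ?_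
      · exact Primrec.eq.comp (primrec_testBit.comp h2 Primrec.fst) (Primrec.const true)
      · exact primrec_valid.comp h1 Primrec.fst
    refine h3.of_eq ?_
    rintro ⟨c, y⟩
    simp only [imp_iff_not_or]
  have h2 := PrimrecRel.forall_lt h
  have h3 : PrimrecPred (fun q : ℕ × ℕ => ∀ c < q.2,
      (Nat.pair q.1 q.2).unpair.2.testBit c = true → valid (Nat.pair q.1 q.2).unpair.1 c) :=
    h2.comp Primrec.snd (Primrec₂.natPair.comp Primrec.fst Primrec.snd)
  refine h3.of_eq ?_
  rintro ⟨m, v⟩
  simp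

theorem primrec_val : Primrec₂ val := by
  unfold val
  have hb : Primrec (fun p : ℕ × ℕ => bas p.1 p.2) := primrec_bas
  refine Primrec.ite ?_ ?_ (Primrec.const 0)
  · exact Primrec.eq.comp (Primrec.nat_mod.comp hb (Primrec.const 2)) (Primrec.const 1)
  · unfold filt
    refine primrec_lin ?_ ?_
    · refine Primrec.option_getD.comp ?_ (Primrec.const 0)
      exact primrec_evaln (primrec_hd.comp Primrec.snd)
        (primrec_prog.comp (Primrec.nat_div.comp hb (Primrec.const 2))) Primrec.fst
    · refine Primrec.ite ?_ ?_ (Primrec.const 0)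
      · exact primrec_valid.comp (Primrec.fst.comp Primrec.fst) Primrec.snd
      · exact primrec_pow.comp (Primrec.const 2) Primrec.snd

theorem primrec_theta : Primrec₂ theta := by
  unfold theta
  exact primrec_xor.comp (primrec_pow.comp (Primrec.const 2) Primrec.snd) primrec_val

theorem primrec_Pi : Primrec₂ Pi := by
  unfold Pi
  refine primrec_lin Primrec.snd ?_
  exact primrec_theta.comp (Primrec.fst.comp Primrec.fst) (primrec_tl.comp Primrec.snd)

end Pool.Agent.helper63.CompStruct
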