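import Mathlib

/-!
Computable structure theory: computable relational structures, computable infinitary
formulas, computable rank, computable approximability.
-/

namespace Pool.Agent.helper63.CompStruct

open Nat.Partrec (Code)

/-- A computable relational language: relation symbols `R_0, R_1, ...` where `R_i` has
arity `ar i` and the arity function is computable. -/
structure CLang where
  ar : ℕ → ℕ
  ar_comp : Computable ar

/-- A structure for the language `L` whose universe is a (nonempty) subset `dom` of `ℕ`.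
`rel i l` says that the list `l` is a tuple (of length `ar i`) of elements of the universe
which satisfies `R_i`. -/
structure Str (L : CLang) where
  dom : Set ℕ
  nonempty : dom.Nonempty
  rel : ℕ → List ℕ → Prop
  rel_len : ∀ i l, rel i l → l.length = L.ar i
  rel_dom : ∀ i l, rel i l → ∀ a ∈ l, a ∈ dom

variable {L : CLang}

/-- A structure is computable if its universe and its atomic diagram are computable. -/
def Str.IsComputable (A : Str L) : Prop :=
  ComputablePred (fun a : ℕ => a ∈ A.dom) ∧
    ComputablePred (fun p : ℕ × List ℕ => A.rel p.1 p.2)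

/-- `F` restricts to an isomorphism from `A` onto `B`. -/
def IsIso (A B : Str L) (F : ℕ → ℕ) : Prop :=
  Set.BijOn F A.dom B.dom ∧
    ∀ (i : ℕ) (l : List ℕ), (∀ a ∈ l, a ∈ A.dom) → (A.rel i l ↔ B.rel i (l.map F))

/-- `A` and `B` are isomorphic. -/
def Isomorphic (A B : Str L) : Prop := ∃ F : ℕ → ℕ, IsIso A B F

/-- Infinitary formulas over `L` (in negation normal form) whose free variables are among
`x_0, ..., x_{n-1}`.  `eq b j k` is `x_j = x_k` if `b = true` and its negation if `b = false`;
likewise for `rel`.  `conj S f` is the conjunction of the formulas `f i` with `i ∈ S`, `disj S f` is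
their disjunction.  `all φ` and `ex φ` quantify over the last variable `x_n` of `φ`. -/
inductive Fml (L : CLang) : ℕ → Type
  | eq {n : ℕ} (b : Bool) (j k : Fin n) : Fml L n
  | rel {n : ℕ} (b : Bool) (i : ℕ) (args : Fin (L.ar i) → Fin n) : Fml L n
  | conj {n : ℕ} (S : Set ℕ) (f : ℕ → Fml L n) : Fml L n
  | disj {n : ℕ} (S : Set ℕ) (f : ℕ → Fml L n) : Fml L n
  | all {n : ℕ} (φ : Fml L (n + 1)) : Fml L n
  | ex {n : ℕ} (φ : Fml L (n + 1)) : Fml L n

/-- Truth of a formula in a structure at a tuple `v`. -/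
def Realize (A : Str L) : {n : ℕ} → Fml L n → (Fin n → ℕ) → Prop
  | _, Fml.eq b j k, v => (v j = v k ↔ b = true)
  | _, Fml.rel b i args, v => (A.rel i (List.ofFn fun t => v (args t)) ↔ b = true)
  | _, Fml.conj S f, v => ∀ i ∈ S, Realize A (f i) v
  | _, Fml.disj S f, v => ∃ i ∈ S, Realize A (f i) v
  | _, Fml.all φ, v => ∀ a ∈ A.dom, Realize A φ (Fin.snoc v a)
  | _, Fml.ex φ, v => ∃ a ∈ A.dom, Realize A φ (Fin.snoc v a)

/-- Truth of a sentence. -/
def Models (A : Str L) (φ : Fml L 0) : Prop := Realize A φ Fin.elim0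

/-- `IsIndex m φ`: the natural number `m` is an index of the formula `φ`.  Literals are indexed
by their codes.  An index of a conjunction or disjunction is given by (a program for) a
computable partial function `c` which enumerates the c.e. set `{c(k) : k ∈ dom c}` of indices of
the formulas that are conjoined or disjoined. -/
inductive IsIndex : {n : ℕ} → ℕ → Fml L n → Prop
  | eq {n : ℕ} (b : Bool) (j k : Fin n) :
      IsIndex (Nat.pair 0 (Encodable.encode (b, (j : ℕ), (k : ℕ)))) (Fml.eq b j k)
  | rel {n : ℕ} (b : Bool) (i : ℕ) (args : Fin (L.ar i) → Fin n) :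
      IsIndex (Nat.pair 1 (Encodable.encode (b, i, List.ofFn fun t => (args t : ℕ))))
        (Fml.rel b i args)
  | conj {n : ℕ} (c : Code) (f : ℕ → Fml L n) :
      (∀ k m : ℕ, m ∈ c.eval k → IsIndex m (f k)) →
        IsIndex (Nat.pair 2 (Encodable.encode c)) (Fml.conj {k | (c.eval k).Dom} f)
  | disj {n : ℕ} (c : Code) (f : ℕ → Fml L n) :
      (∀ k m : ℕ, m ∈ c.eval k → IsIndex m (f k)) →
        IsIndex (Nat.pair 3 (Encodable.encode c)) (Fml.disj {k | (c.eval k).Dom} f)
  | all {n : ℕ} (m : ℕ) (φ : Fml L (n + 1)) : IsIndex m φ → IsIndex (Nat.pair 4 m) (Fml.all φ)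
  | ex {n : ℕ} (m : ℕ) (φ : Fml L (n + 1)) : IsIndex m φ → IsIndex (Nat.pair 5 m) (Fml.ex φ)

/-- A computable infinitary formula: one that has an index. -/
def IsComputableInf {n : ℕ} (φ : Fml L n) : Prop := ∃ m : ℕ, IsIndex m φ

/-- Finitary quantifier-free formulas. -/
inductive IsQF : {n : ℕ} → Fml L n → Prop
  | eq {n : ℕ} (b : Bool) (j k : Fin n) : IsQF (Fml.eq b j k)
  | rel {n : ℕ} (b : Bool) (i : ℕ) (args : Fin (L.ar i) → Fin n) : IsQF (Fml.rel b i args)
  | conj {n : ℕ} (S : Set ℕ) (f : ℕ → Fml L n) : S.Finite → (∀ k ∈ S, IsQF (f k)) →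
      IsQF (Fml.conj S f)
  | disj {n : ℕ} (S : Set ℕ) (f : ℕ → Fml L n) : S.Finite → (∀ k ∈ S, IsQF (f k)) →
      IsQF (Fml.disj S f)

/-- The block `∀ x_n ... ∀ x_{n+k-1}` in front of a formula. -/
def alls : (k : ℕ) → {n : ℕ} → Fml L (n + k) → Fml L n
  | 0, _, φ => φ
  | k + 1, n, φ => alls (n := n) k (Fml.all φ)

/-- The block `∃ x_n ... ∃ x_{n+k-1}` in front of a formula. -/
def exs : (k : ℕ) → {n : ℕ} → Fml L (n + k) → Fml L n
  | 0, _, φ => φ
  | k + 1, n, φ => exs (n := n) k (Fml.ex φ)

/-- The classes `Σ_α` (`IsLevel true α`) and `Π_α` (`IsLevel false α`) of infinitary formulas: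
a finitary quantifier-free formula is `Σ_α` and `Π_α` for every `α`; a disjunction of formulas
`∃ u ψ` with `ψ` in `Π_β` for some `β < α` is `Σ_α`; a conjunction of formulas `∀ u ψ` with `ψ` in
`Σ_β` for some `β < α` is `Π_α`. -/
inductive IsLevel : Bool → Ordinal.{0} → {n : ℕ} → Fml L n → Prop
  | qf {n : ℕ} (b : Bool) (α : Ordinal.{0}) (φ : Fml L n) : IsQF φ → IsLevel b α φ
  | sigma {n : ℕ} (α : Ordinal.{0}) (S : Set ℕ) (f : ℕ → Fml L n) (k : ℕ → ℕ)
      (ψ : (i : ℕ) → Fml L (n + k i)) (β : ℕ → Ordinal.{0}) :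
      (∀ i ∈ S, f i = exs (k i) (ψ i)) → (∀ i ∈ S, β i < α) →
      (∀ i ∈ S, IsLevel false (β i) (ψ i)) → IsLevel true α (Fml.disj S f)
  | pi {n : ℕ} (α : Ordinal.{0}) (S : Set ℕ) (f : ℕ → Fml L n) (k : ℕ → ℕ)
      (ψ : (i : ℕ) → Fml L (n + k i)) (β : ℕ → Ordinal.{0}) :
      (∀ i ∈ S, f i = alls (k i) (ψ i)) → (∀ i ∈ S, β i < α) →
      (∀ i ∈ S, IsLevel true (β i) (ψ i)) → IsLevel false α (Fml.conj S f)

/-- Computable ordinals: order types of computable well-orderings of computable subsets
of `ℕ`. -/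
def IsComputableOrdinal (α : Ordinal.{0}) : Prop :=
  ∃ (D : Set ℕ) (r : ℕ → ℕ → Prop),
    ComputablePred (fun a : ℕ => a ∈ D) ∧ ComputablePred (fun p : ℕ × ℕ => r p.1 p.2) ∧
      ∃ h : IsWellOrder D (fun x y => r x y), @Ordinal.type D (fun x y => r x y) h = α

/-- `ω₁^CK`, the least ordinal that is not computable. -/
noncomputable def omega1CK : Ordinal.{0} := sInf {α | ¬ IsComputableOrdinal α}

/-- The property in the definition of the computable rank: for all tuples `a`, `b`, if `b`
satisfies all computable `Π_α` formulas true of `a`, then `b` satisfies all computable infinitary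
formulas true of `a`. -/
def RankProp (A : Str L) (α : Ordinal.{0}) : Prop :=
  ∀ (n : ℕ) (a b : Fin n → ℕ), (∀ j, a j ∈ A.dom) → (∀ j, b j ∈ A.dom) →
    (∀ φ : Fml L n, IsComputableInf φ → IsLevel false α φ → Realize A φ a → Realize A φ b) →
    ∀ φ : Fml L n, IsComputableInf φ → Realize A φ a → Realize A φ b

/-- The computable rank `R^c(A)`: the least computable ordinal with `RankProp`, and `ω₁^CK` if
there is none. -/
noncomputable def computableRank (A : Str L) : Ordinal.{0} :=
  sInf ({α | IsComputableOrdinal α ∧ RankProp A α} ∪ {omega1CK})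

/-- `A` is computably approximable: every computable infinitary sentence true in `A` is true
in some computable structure that is not isomorphic to `A`. -/
def ComputablyApproximable (A : Str L) : Prop :=
  ∀ φ : Fml L 0, IsComputableInf φ → Models A φ →
    ∃ B : Str L, B.IsComputable ∧ Models B φ ∧ ¬ Isomorphic A B

end Pool.Agent.helper63.CompStruct
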