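import Pool.Agent.helper63.CompStruct.Sentence

/-!
The structure `theA`, and the consequences of the sentence `thePhi`.
-/

namespace Pool.Agent.helper63.CompStruct

open Nat.Partrec (Code)
open Primrec

/-- `x` and `y` have level `m` and difference `v` -/
def Str.T (M : Str theL) (m v x y : ℕ) : Prop := M.rel (Nat.pair m v + 1) [x, y]
/-- `y` is the projection of `x` -/
def Str.P (M : Str theL) (x y : ℕ) : Prop := M.rel 0 [x, y]

theorem Str.T_dom1 {M : Str theL} {m v x y : ℕ} (h : M.T m v x y) : x ∈ M.dom :=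
  M.rel_dom _ _ h x (by simp)
theorem Str.T_dom2 {M : Str theL} {m v x y : ℕ} (h : M.T m v x y) : y ∈ M.dom :=
  M.rel_dom _ _ h y (by simp)
theorem Str.P_dom1 {M : Str theL} {x y : ℕ} (h : M.P x y) : x ∈ M.dom :=
  M.rel_dom _ _ h x (by simp)
theorem Str.P_dom2 {M : Str theL} {x y : ℕ} (h : M.P x y) : y ∈ M.dom :=
  M.rel_dom _ _ h y (by simp)

theorem litHolds_T (M : Str theL) (b : Bool) (m v : ℕ) (j k : Fin 5) (w : Fin 5 → ℕ) :
    litHolds M (litT b m v j k) w ↔ (M.T m v (w j) (w k) ↔ b = true) := Iff.rfl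
theorem litHolds_P (M : Str theL) (b : Bool) (j k : Fin 5) (w : Fin 5 → ℕ) :
    litHolds M (litP b j k) w ↔ (M.P (w j) (w k) ↔ b = true) := Iff.rfl
theorem litHolds_E (M : Str theL) (j k : Fin 5) (w : Fin 5 → ℕ) :
    litHolds M (litE j k) w ↔ w j = w k := by
  show (w j = w k ↔ true = true) ↔ _
  simp
theorem litHolds_T' (M : Str theL) (b : Bool) (t : ℕ) (j k : Fin 5) (w : Fin 5 → ℕ) :
    litHolds M (b, t + 2, j, k) w ↔ (M.rel (t + 1) [w j, w k] ↔ b = true) := Iff.rfl

/-- the axioms of torsor towers -/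
structure TM (M : Str theL) : Prop where
  h0 : ∀ x ∈ M.dom, ∃ m, M.T m 0 x x
  h1 : ∀ t t' x y, M.rel (t + 1) [x, y] → M.rel (t' + 1) [x, y] → t = t'
  h2 : ∀ m, ∃ x, M.T m 0 x x
  h3 : ∀ m x y, M.T m 0 x x → M.T m 0 y y → ∃ v, M.T m v x y
  h4 : ∀ m v w x y z, M.T m v x y → M.T m w y z → M.T m (v ^^^ w) x z
  h5 : ∀ m v x, isVec m v → M.T m 0 x x → ∃ y, M.T m v x y
  h5' : ∀ m v x y, M.T m v x y → isVec m v
  h6 : ∀ m v x y, M.T m v x y → M.T m 0 x x
  h7 : ∀ m v x y, M.T m v x y → M.T m 0 y y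
  h8 : ∀ m x y, M.T m 0 x y → x = y
  h9 : ∀ x y, M.P x y → ∃ m, M.T (m + 1) 0 x x
  h10 : ∀ m x y, M.P x y → M.T (m + 1) 0 x x → M.T m 0 y y
  h11 : ∀ m x, M.T (m + 1) 0 x x → ∃ y, M.P x y
  h12 : ∀ m v x y z w, M.T (m + 1) v x z → M.P x y → M.P z w → M.T m (Pi m v) y w

theorem G_pair (κ p k : ℕ) : G (Nat.pair κ p) k =
    if κ = 0 then g0 p k
    else if κ = 1 then g1 p k
    else if κ = 2 then g2 p k
    else if κ = 3 then g3 p k
    else if κ = 4 then g4 p k
    else if κ = 5 then g5 p k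
    else if κ = 6 then g6 p k
    else if κ = 7 then g7 p k
    else if κ = 8 then g8 p k
    else if κ = 9 then g9 p k
    else if κ = 10 then g10 p k
    else if κ = 11 then g11 p k
    else g12 p k := by
  unfold G
  simp

theorem tm_of_models {M : Str theL} (hM : Models M thePhi) : TM M := by
  rw [models_thePhi] at hM
  obtain ⟨d, hd⟩ := M.nonempty
  constructor
  · intro x hx
    obtain ⟨k, x4, h4, h⟩ := hM (Nat.pair 0 0) x hx x hx x hx x hx
    rw [G_pair, if_pos rfl] at h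
    exact ⟨k, by simpa [g0, litHolds_T] using h⟩
  · intro t t' x y h h'
    have hx : x ∈ M.dom := M.rel_dom _ _ h x (by simp)
    have hy : y ∈ M.dom := M.rel_dom _ _ h y (by simp)
    obtain ⟨k, x4, h4, hk⟩ := hM (Nat.pair 1 (Nat.pair t t')) x hx y hy x hx x hx
    rw [G_pair, if_neg (by norm_num), if_pos rfl] at hk
    unfold g1 at hk
    simp only [Nat.unpair_pair] at hk
    by_contra hne
    rw [if_neg hne] at hk
    split_ifs at hk with hk0
    · rw [litHolds_T'] at hk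
      simp at hk
      exact hk h
    · rw [litHolds_T'] at hk
      simp at hk
      exact hk h'
  · intro m
    obtain ⟨k, x4, h4, hk⟩ := hM (Nat.pair 2 m) d hd d hd d hd d hd
    rw [G_pair, if_neg (by norm_num), if_neg (by norm_num), if_pos rfl] at hk
    exact ⟨x4, by simpa [g2, litHolds_T] using hk⟩
  · intro m x y hx hy
    obtain ⟨k, x4, h4, hk⟩ := hM (Nat.pair 3 m) x (Str.T_dom1 hx) y (Str.T_dom1 hy)
      x (Str.T_dom1 hx) x (Str.T_dom1 hx)
    rw [G_pair] at hk
    norm_num [g3] at hk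
    split_ifs at hk with h1 h2
    · simp [litHolds_T] at hk
      exact absurd hx hk
    · simp [litHolds_T] at hk
      exact absurd hy hk
    · simp [litHolds_T] at hk
      exact ⟨_, hk⟩
  · intro m v w x y z h h'
    obtain ⟨k, x4, h4, hk⟩ := hM (Nat.pair 4 (Nat.pair m (Nat.pair v w))) x (Str.T_dom1 h)
      y (Str.T_dom2 h) z (Str.T_dom2 h') x (Str.T_dom1 h)
    rw [G_pair] at hk
    norm_num [g4] at hk
    split_ifs at hk with h1 h2
    · simp [litHolds_T] at hk
      exact absurd h hk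
    · simp [litHolds_T] at hk
      exact absurd h' hk
    · simp [litHolds_T] at hk
      exact hk
  · intro m v x hv hx
    obtain ⟨k, x4, h4, hk⟩ := hM (Nat.pair 5 (Nat.pair m v)) x (Str.T_dom1 hx)
      x (Str.T_dom1 hx) x (Str.T_dom1 hx) x (Str.T_dom1 hx)
    rw [G_pair] at hk
    norm_num [g5, hv] at hk
    split_ifs at hk with h1
    · simp [litHolds_T] at hk
      exact absurd hx hk
    · simp [litHolds_T] at hk
      exact ⟨_, hk⟩
  · intro m v x y h
    by_contra hv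
    obtain ⟨k, x4, h4, hk⟩ := hM (Nat.pair 5 (Nat.pair m v)) x (Str.T_dom1 h)
      y (Str.T_dom2 h) x (Str.T_dom1 h) x (Str.T_dom1 h)
    rw [G_pair] at hk
    norm_num [g5, hv] at hk
    simp [litHolds_T] at hk
    exact absurd h hk
  · intro m v x y h
    obtain ⟨k, x4, h4, hk⟩ := hM (Nat.pair 6 (Nat.pair m v)) x (Str.T_dom1 h)
      y (Str.T_dom2 h) x (Str.T_dom1 h) x (Str.T_dom1 h)
    rw [G_pair] at hk
    norm_num [g6] at hk
    split_ifs at hk with h1
    · simp [litHolds_T] at hk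
      exact absurd h hk
    · simp [litHolds_T] at hk
      exact hk
  · intro m v x y h
    obtain ⟨k, x4, h4, hk⟩ := hM (Nat.pair 7 (Nat.pair m v)) x (Str.T_dom1 h)
      y (Str.T_dom2 h) x (Str.T_dom1 h) x (Str.T_dom1 h)
    rw [G_pair] at hk
    norm_num [g7] at hk
    split_ifs at hk with h1
    · simp [litHolds_T] at hk
      exact absurd h hk
    · simp [litHolds_T] at hk
      exact hk
  · intro m x y h
    obtain ⟨k, x4, h4, hk⟩ := hM (Nat.pair 8 m) x (Str.T_dom1 h)
      y (Str.T_dom2 h) x (Str.T_dom1 h) x (Str.T_dom1 h)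
    rw [G_pair] at hk
    norm_num [g8] at hk
    split_ifs at hk with h1
    · simp [litHolds_T] at hk
      exact absurd h hk
    · simp [litHolds_E] at hk
      exact hk
  · intro x y h
    obtain ⟨k, x4, h4, hk⟩ := hM (Nat.pair 9 0) x (Str.P_dom1 h)
      y (Str.P_dom2 h) x (Str.P_dom1 h) x (Str.P_dom1 h)
    rw [G_pair] at hk
    norm_num [g9] at hk
    split_ifs at hk with h1
    · simp [litHolds_P] at hk
      exact absurd h hk
    · simp [litHolds_T] at hk
      obtain ⟨m, rfl⟩ := Nat.exists_eq_succ_of_ne_zero h1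
      exact ⟨m, hk⟩
  · intro m x y h h'
    obtain ⟨k, x4, h4, hk⟩ := hM (Nat.pair 10 m) x (Str.P_dom1 h)
      y (Str.P_dom2 h) x (Str.P_dom1 h) x (Str.P_dom1 h)
    rw [G_pair] at hk
    norm_num [g10] at hk
    split_ifs at hk with h1 h2
    · simp [litHolds_P] at hk
      exact absurd h hk
    · simp [litHolds_T] at hk
      exact absurd h' hk
    · simp [litHolds_T] at hk
      exact hk
  · intro m x h
    obtain ⟨k, x4, h4, hk⟩ := hM (Nat.pair 11 m) x (Str.T_dom1 h)
      x (Str.T_dom1 h) x (Str.T_dom1 h) x (Str.T_dom1 h)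
    rw [G_pair] at hk
    norm_num [g11] at hk
    split_ifs at hk with h1
    · simp [litHolds_T] at hk
      exact absurd h hk
    · simp [litHolds_P] at hk
      exact ⟨_, hk⟩
  · intro m v x y z w h h' h''
    obtain ⟨k, x4, h4, hk⟩ := hM (Nat.pair 12 (Nat.pair m v)) x (Str.P_dom1 h')
      y (Str.P_dom2 h') z (Str.P_dom1 h'') w (Str.P_dom2 h'')
    rw [G_pair] at hk
    norm_num [g12] at hk
    split_ifs at hk with h1 h2 h3
    · simp [litHolds_T] at hk
      exact absurd h hk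
    · simp [litHolds_P] at hk
      exact absurd h' hk
    · simp [litHolds_P] at hk
      exact absurd h'' hk
    · simp [litHolds_T] at hk
      exact hk

theorem models_of_tm {M : Str theL} (h : TM M) : Models M thePhi := by
  rw [models_thePhi]
  intro a x0 d0 x1 d1 x2 d2 x3 d3
  obtain ⟨κ, p, rfl⟩ : ∃ κ p, a = Nat.pair κ p := ⟨_, _, (Nat.pair_unpair a).symm⟩
  simp only [G_pair]
  by_cases k0 : κ = 0
  · simp only [if_pos k0]
    obtain ⟨m, hm⟩ := h.h0 x0 d0
    exact ⟨m, x0, d0, by simpa [g0, litHolds_T] using hm⟩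
  simp only [if_neg k0]
  by_cases k1 : κ = 1
  · simp only [if_pos k1]
    by_cases hp : p.unpair.1 = p.unpair.2
    · exact ⟨0, x0, d0, by simp [g1, hp, litHolds_E]⟩
    · by_cases hr : M.rel (p.unpair.1 + 1) [x0, x1]
      · refine ⟨1, x0, d0, ?_⟩
        have : ¬ M.rel (p.unpair.2 + 1) [x0, x1] := fun h' => hp (h.h1 _ _ _ _ hr h')
        simp [g1, hp, litHolds_T', this]
      · refine ⟨0, x0, d0, ?_⟩
        simp [g1, hp, litHolds_T', hr]
  simp only [if_neg k1]
  by_cases k2 : κ = 2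
  · simp only [if_pos k2]
    obtain ⟨x, hx⟩ := h.h2 p
    exact ⟨0, x, Str.T_dom1 hx, by simpa [g2, litHolds_T] using hx⟩
  simp only [if_neg k2]
  by_cases k3 : κ = 3
  · simp only [if_pos k3]
    by_cases c0 : M.T p 0 x0 x0
    · by_cases c1 : M.T p 0 x1 x1
      · obtain ⟨v, hv⟩ := h.h3 p x0 x1 c0 c1
        exact ⟨v + 2, x0, d0, by simpa [g3, litHolds_T] using hv⟩
      · exact ⟨1, x0, d0, by simpa [g3, litHolds_T] using c1⟩
    · exact ⟨0, x0, d0, by simpa [g3, litHolds_T] using c0⟩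
  simp only [if_neg k3]
  by_cases k4 : κ = 4
  · simp only [if_pos k4]
    by_cases c0 : M.T p.unpair.1 p.unpair.2.unpair.1 x0 x1
    · by_cases c1 : M.T p.unpair.1 p.unpair.2.unpair.2 x1 x2
      · have := h.h4 _ _ _ _ _ _ c0 c1
        exact ⟨2, x0, d0, by simpa [g4, litHolds_T] using this⟩
      · exact ⟨1, x0, d0, by simpa [g4, litHolds_T] using c1⟩
    · exact ⟨0, x0, d0, by simpa [g4, litHolds_T] using c0⟩
  simp only [if_neg k4]
  by_cases k5 : κ = 5
  · simp only [if_pos k5]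
    by_cases hv : isVec p.unpair.1 p.unpair.2
    · by_cases c0 : M.T p.unpair.1 0 x0 x0
      · obtain ⟨y, hy⟩ := h.h5 _ _ _ hv c0
        exact ⟨1, y, Str.T_dom2 hy, by simpa [g5, hv, litHolds_T] using hy⟩
      · exact ⟨0, x0, d0, by simpa [g5, hv, litHolds_T] using c0⟩
    · refine ⟨0, x0, d0, ?_⟩
      have : ¬ M.T p.unpair.1 p.unpair.2 x0 x1 := fun h' => hv (h.h5' _ _ _ _ h')
      simpa [g5, hv, litHolds_T] using this
  simp only [if_neg k5]
  by_cases k6 : κ = 6
  · simp only [if_pos k6]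
    by_cases c0 : M.T p.unpair.1 p.unpair.2 x0 x1
    · exact ⟨1, x0, d0, by simpa [g6, litHolds_T] using h.h6 _ _ _ _ c0⟩
    · exact ⟨0, x0, d0, by simpa [g6, litHolds_T] using c0⟩
  simp only [if_neg k6]
  by_cases k7 : κ = 7
  · simp only [if_pos k7]
    by_cases c0 : M.T p.unpair.1 p.unpair.2 x0 x1
    · exact ⟨1, x0, d0, by simpa [g7, litHolds_T] using h.h7 _ _ _ _ c0⟩
    · exact ⟨0, x0, d0, by simpa [g7, litHolds_T] using c0⟩
  simp only [if_neg k7]
  by_cases k8 : κ = 8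
  · simp only [if_pos k8]
    by_cases c0 : M.T p 0 x0 x1
    · exact ⟨1, x0, d0, by simpa [g8, litHolds_E] using h.h8 _ _ _ c0⟩
    · exact ⟨0, x0, d0, by simpa [g8, litHolds_T] using c0⟩
  simp only [if_neg k8]
  by_cases k9 : κ = 9
  · simp only [if_pos k9]
    by_cases c0 : M.P x0 x1
    · obtain ⟨m, hm⟩ := h.h9 _ _ c0
      exact ⟨m + 1, x0, d0, by simpa [g9, litHolds_T] using hm⟩
    · exact ⟨0, x0, d0, by simpa [g9, litHolds_P] using c0⟩
  simp only [if_neg k9]
  by_cases k10 : κ = 10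
  · simp only [if_pos k10]
    by_cases c0 : M.P x0 x1
    · by_cases c1 : M.T (p + 1) 0 x0 x0
      · exact ⟨2, x0, d0, by simpa [g10, litHolds_T] using h.h10 _ _ _ c0 c1⟩
      · exact ⟨1, x0, d0, by simpa [g10, litHolds_T] using c1⟩
    · exact ⟨0, x0, d0, by simpa [g10, litHolds_P] using c0⟩
  simp only [if_neg k10]
  by_cases k11 : κ = 11
  · simp only [if_pos k11]
    by_cases c0 : M.T (p + 1) 0 x0 x0
    · obtain ⟨y, hy⟩ := h.h11 _ _ c0
      exact ⟨1, y, Str.P_dom2 hy, by simpa [g11, litHolds_P] using hy⟩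
    · exact ⟨0, x0, d0, by simpa [g11, litHolds_T] using c0⟩
  simp only [if_neg k11]
  by_cases c0 : M.T (p.unpair.1 + 1) p.unpair.2 x0 x2
  · by_cases c1 : M.P x0 x1
    · by_cases c2 : M.P x2 x3
      · exact ⟨3, x0, d0, by simpa [g12, litHolds_T] using h.h12 _ _ _ _ _ _ c0 c1 c2⟩
      · exact ⟨2, x0, d0, by simpa [g12, litHolds_P] using c2⟩
    · exact ⟨1, x0, d0, by simpa [g12, litHolds_P] using c1⟩
  · exact ⟨0, x0, d0, by simpa [g12, litHolds_T] using c0⟩

/-! ### the structure -/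

/-- the relations of the structure -/
def relA (i x y : ℕ) : Prop :=
  (i = 0 ∧ isVec x.unpair.1 x.unpair.2 ∧ x.unpair.1 = y.unpair.1 + 1 ∧
    y.unpair.2 = Pi y.unpair.1 x.unpair.2) ∨
  (i ≠ 0 ∧ isVec x.unpair.1 x.unpair.2 ∧ isVec y.unpair.1 y.unpair.2 ∧
    x.unpair.1 = (i - 1).unpair.1 ∧ y.unpair.1 = (i - 1).unpair.1 ∧
    x.unpair.2 ^^^ y.unpair.2 = (i - 1).unpair.2)

/-- the structure: the universe consists of the codes `⟨m, v⟩` with `v` a vector of level `m` -/
def theA : Str theL where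
  dom := {x | isVec x.unpair.1 x.unpair.2}
  nonempty := ⟨0, by simp⟩
  rel := fun i l => ∃ x y, l = [x, y] ∧ relA i x y
  rel_len := by
    rintro i l ⟨x, y, rfl, _⟩
    rfl
  rel_dom := by
    rintro i l ⟨x, y, rfl, h⟩ a ha
    simp only [List.mem_cons, List.not_mem_nil, or_false] at ha
    rcases h with ⟨_, h1, h2, h3⟩ | ⟨_, h1, h2, _⟩
    · rcases ha with rfl | rfl
      · exact h1
      · show isVec _ _
        rw [h2] at h1
        rw [h3]
        exact isVec_Pi h1
    · rcases ha with rfl | rfl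
      · exact h1
      · exact h2

theorem theA_dom (x : ℕ) : x ∈ theA.dom ↔ isVec x.unpair.1 x.unpair.2 := Iff.rfl

theorem theA_rel (i x y : ℕ) : theA.rel i [x, y] ↔ relA i x y := by
  constructor
  · rintro ⟨x', y', h, h'⟩
    simp only [List.cons.injEq, and_true] at h
    rw [h.1, h.2]
    exact h'
  · intro h
    exact ⟨x, y, rfl, h⟩

theorem theA_P (x y : ℕ) : theA.P x y ↔ (isVec x.unpair.1 x.unpair.2 ∧
    x.unpair.1 = y.unpair.1 + 1 ∧ y.unpair.2 = Pi y.unpair.1 x.unpair.2) := by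
  unfold Str.P
  rw [theA_rel, relA]
  simp

theorem theA_T (m v x y : ℕ) : theA.T m v x y ↔ (isVec x.unpair.1 x.unpair.2 ∧
    isVec y.unpair.1 y.unpair.2 ∧ x.unpair.1 = m ∧ y.unpair.1 = m ∧
      x.unpair.2 ^^^ y.unpair.2 = v) := by
  unfold Str.T
  rw [theA_rel, relA]
  simp

theorem primrec_relA : PrimrecPred (fun q : ℕ × ℕ × ℕ => relA q.1 q.2.1 q.2.2) := by
  unfold relA
  have hi : Primrec (fun q : ℕ × ℕ × ℕ => q.1) := Primrec.fst
  have hx : Primrec (fun q : ℕ × ℕ × ℕ => q.2.1) := Primrec.fst.comp Primrec.snd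
  have hy : Primrec (fun q : ℕ × ℕ × ℕ => q.2.2) := Primrec.snd.comp Primrec.snd
  have x1 : Primrec (fun q : ℕ × ℕ × ℕ => q.2.1.unpair.1) :=
    Primrec.fst.comp (Primrec.unpair.comp hx)
  have x2 : Primrec (fun q : ℕ × ℕ × ℕ => q.2.1.unpair.2) :=
    Primrec.snd.comp (Primrec.unpair.comp hx)
  have y1 : Primrec (fun q : ℕ × ℕ × ℕ => q.2.2.unpair.1) :=
    Primrec.fst.comp (Primrec.unpair.comp hy)
  have y2 : Primrec (fun q : ℕ × ℕ × ℕ => q.2.2.unpair.2) :=
    Primrec.snd.comp (Primrec.unpair.comp hy)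
  have i1 : Primrec (fun q : ℕ × ℕ × ℕ => (q.1 - 1).unpair.1) :=
    Primrec.fst.comp (Primrec.unpair.comp (Primrec.nat_sub.comp hi (Primrec.const 1)))
  have i2 : Primrec (fun q : ℕ × ℕ × ℕ => (q.1 - 1).unpair.2) :=
    Primrec.snd.comp (Primrec.unpair.comp (Primrec.nat_sub.comp hi (Primrec.const 1)))
  have i0 : PrimrecPred (fun q : ℕ × ℕ × ℕ => q.1 = 0) := Primrec.eq.comp hi (Primrec.const 0)
  refine PrimrecPred.or (PrimrecPred.and i0 (PrimrecPred.and ?_ (PrimrecPred.and ?_ ?_)))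
    (PrimrecPred.and i0.not (PrimrecPred.and ?_ (PrimrecPred.and ?_ (PrimrecPred.and ?_
      (PrimrecPred.and ?_ ?_)))))
  · exact primrec_isVec.comp x1 x2
  · exact Primrec.eq.comp x1 (Primrec.succ.comp y1)
  · exact Primrec.eq.comp y2 (primrec_Pi.comp y1 x2)
  · exact primrec_isVec.comp x1 x2
  · exact primrec_isVec.comp y1 y2
  · exact Primrec.eq.comp x1 i1
  · exact Primrec.eq.comp y1 i1
  · exact Primrec.eq.comp (primrec_xor.comp x2 y2) i2

theorem theA_computable : theA.IsComputable := by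
  constructor
  · have : PrimrecPred (fun x : ℕ => isVec x.unpair.1 x.unpair.2) :=
      primrec_isVec.comp (Primrec.fst.comp Primrec.unpair) (Primrec.snd.comp Primrec.unpair)
    exact this.computablePred
  · have h : PrimrecPred (fun p : ℕ × List ℕ => p.2.length = 2 ∧
        relA p.1 (p.2.getD 0 0) (p.2.getD 1 0)) := by
      refine PrimrecPred.and ?_ ?_
      · exact Primrec.eq.comp (Primrec.list_length.comp Primrec.snd) (Primrec.const 2)
      · exact primrec_relA.comp (Primrec.pair Primrec.fst (Primrec.pair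
          ((Primrec.list_getD 0).comp Primrec.snd (Primrec.const 0))
          ((Primrec.list_getD 0).comp Primrec.snd (Primrec.const 1))))
    refine h.computablePred.of_eq ?_
    rintro ⟨i, l⟩
    constructor
    · rintro ⟨h1, h2⟩
      match l, h1 with
      | [x, y], _ => exact ⟨x, y, rfl, h2⟩
    · rintro ⟨x, y, h1, h2⟩
      simp only at h1
      subst h1
      exact ⟨rfl, h2⟩

theorem theA_tm : TM theA := by
  constructor
  · intro x hx
    refine ⟨x.unpair.1, ?_⟩
    rw [theA_T]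
    exact ⟨hx, hx, rfl, rfl, Nat.xor_self _⟩
  · intro t t' x y h h'
    rw [theA_rel, relA] at h h'
    simp only [Nat.add_eq_zero_iff, one_ne_zero, and_false, false_and, false_or, ne_eq,
      not_false_eq_true, true_and, Nat.add_sub_cancel] at h h'
    have e1 : t.unpair.1 = t'.unpair.1 := by rw [← h.2.2.1, ← h'.2.2.1]
    have e2 : t.unpair.2 = t'.unpair.2 := by rw [← h.2.2.2.2, ← h'.2.2.2.2]
    rw [← Nat.pair_unpair t, ← Nat.pair_unpair t', e1, e2]
  · intro m
    refine ⟨Nat.pair m 0, ?_⟩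
    rw [theA_T]
    simp
  · intro m x y hx hy
    rw [theA_T] at hx hy
    refine ⟨x.unpair.2 ^^^ y.unpair.2, ?_⟩
    rw [theA_T]
    exact ⟨hx.1, hy.1, hx.2.2.1, hy.2.2.1, rfl⟩
  · intro m v w x y z h h'
    rw [theA_T] at *
    refine ⟨h.1, h'.2.1, h.2.2.1, h'.2.2.2.1, ?_⟩
    rw [← h.2.2.2.2, ← h'.2.2.2.2]
    apply Nat.eq_of_testBit_eq
    intro i
    simp only [Nat.testBit_xor]
    cases (x.unpair.2).testBit i <;> cases (y.unpair.2).testBit i <;>
      cases (z.unpair.2).testBit i <;> rfl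
  · intro m v x hv hx
    rw [theA_T] at hx
    refine ⟨Nat.pair m (x.unpair.2 ^^^ v), ?_⟩
    rw [theA_T]
    have hx1 := hx.1
    rw [hx.2.2.1] at hx1
    refine ⟨hx.1, ?_, hx.2.2.1, by simp, ?_⟩
    · simp only [Nat.unpair_pair]
      exact isVec_xor hx1 hv
    · simp only [Nat.unpair_pair]
      rw [← Nat.xor_assoc, Nat.xor_self, Nat.zero_xor]
  · intro m v x y h
    rw [theA_T] at h
    have h1 := h.1
    have h2 := h.2.1
    rw [h.2.2.1] at h1
    rw [h.2.2.2.1] at h2
    rw [← h.2.2.2.2]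
    exact isVec_xor h1 h2
  · intro m v x y h
    rw [theA_T] at *
    exact ⟨h.1, h.1, h.2.2.1, h.2.2.1, Nat.xor_self _⟩
  · intro m v x y h
    rw [theA_T] at *
    exact ⟨h.2.1, h.2.1, h.2.2.2.1, h.2.2.2.1, Nat.xor_self _⟩
  · intro m x y h
    rw [theA_T] at h
    have e1 : x.unpair.1 = y.unpair.1 := by rw [h.2.2.1, h.2.2.2.1]
    have e2 : x.unpair.2 = y.unpair.2 := Nat.xor_eq_zero_iff.1 h.2.2.2.2
    rw [← Nat.pair_unpair x, ← Nat.pair_unpair y, e1, e2]
  · intro x y h
    rw [theA_P] at h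
    refine ⟨y.unpair.1, ?_⟩
    rw [theA_T]
    exact ⟨h.1, h.1, h.2.1, h.2.1, Nat.xor_self _⟩
  · intro m x y h h'
    rw [theA_P] at h
    rw [theA_T] at *
    have e : y.unpair.1 = m := by
      have := h.2.1
      have := h'.2.2.1
      omega
    have hy : isVec y.unpair.1 y.unpair.2 := by
      rw [h.2.2]
      apply isVec_Pi
      rw [← h.2.1]
      exact h.1
    exact ⟨hy, hy, e, e, Nat.xor_self _⟩
  · intro m x h
    rw [theA_T] at h
    refine ⟨Nat.pair m (Pi m x.unpair.2), ?_⟩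
    rw [theA_P]
    simp only [Nat.unpair_pair, and_true]
    exact ⟨h.1, h.2.2.1⟩
  · intro m v x y z w h h' h''
    rw [theA_P] at h' h''
    rw [theA_T] at *
    have e : y.unpair.1 = m := by
      have := h'.2.1
      have := h.2.2.1
      omega
    have e' : w.unpair.1 = m := by
      have := h''.2.1
      have := h.2.2.2.1
      omega
    have hy : isVec y.unpair.1 y.unpair.2 := by
      rw [h'.2.2]
      apply isVec_Pi
      rw [← h'.2.1]
      exact h'.1
    have hw : isVec w.unpair.1 w.unpair.2 := by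
      rw [h''.2.2]
      apply isVec_Pi
      rw [← h''.2.1]
      exact h''.1
    refine ⟨hy, hw, e, e', ?_⟩
    rw [h'.2.2, h''.2.2, e, e', ← Pi_xor, h.2.2.2.2]

theorem theA_models : Models theA thePhi := models_of_tm theA_tm

end Pool.Agent.helper63.CompStruct
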