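import Pool.Agent.helper63.CompStruct.Model

/-!
Every computable model of `thePhi` is computably isomorphic to `theA`.
-/

namespace Pool.Agent.helper63.CompStruct

open Nat.Partrec (Code)

theorem computablePred_comp {α β : Type*} [Primcodable α] [Primcodable β] {p : β → Prop}
    {f : α → β} (hp : ComputablePred p) (hf : Computable f) : ComputablePred (fun a => p (f a)) := by
  obtain ⟨inst, h⟩ := hp
  exact ⟨fun a => inst (f a), h.comp hf⟩

theorem xor_cancel (a b : ℕ) : a ^^^ (a ^^^ b) = b := by
  rw [← Nat.xor_assoc, Nat.xor_self, Nat.zero_xor]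

/-- every computable sequence is a coboundary -/
theorem triv {y : ℕ → ℕ} (hy : Computable y) (hv : ∀ m, isVec m (y m)) :
    ∃ x : ℕ → ℕ, Computable x ∧ (∀ m, isVec m (x m)) ∧
      ∀ m, y m = x m ^^^ Pi m (x (m + 1)) := by
  classical
  obtain ⟨c, hc⟩ := Code.exists_code.1 (Partrec.nat_iff.1 hy.partrec)
  have hc' : ∀ i, c.eval i = Part.some (y i) := fun i => by rw [hc]; rfl
  obtain ⟨e, he⟩ : ∃ e, prog e = c := ⟨Encodable.encode c, Denumerable.ofNat_encode c⟩
  have hex : ∀ i, ∃ s, good e i s := by
    intro i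
    have h1 : y i ∈ c.eval i := by rw [hc' i]; exact Part.mem_some _
    obtain ⟨k, hk⟩ := Code.evaln_complete.1 h1
    refine ⟨k + (y i + 1), y i, by omega, ?_⟩
    rw [he]
    exact Code.evaln_mono (by omega) hk
  let st : ℕ → ℕ := fun i => Nat.find (hex i)
  have hst : Computable st := by
    refine Computable.find (P := fun i s => good e i s) ?_ hex
    have : PrimrecPred (fun p : ℕ × ℕ => good e p.1 p.2) :=
      primrec_good.comp (f := fun p : ℕ × ℕ => ((e, p.1), p.2))
        (Primrec.pair (Primrec.pair (Primrec.const e) Primrec.fst) Primrec.snd)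
    exact this.computablePred
  have hmin : ∀ i, goodMin e i (st i) := fun i =>
    ⟨Nat.find_spec (hex i), fun t ht => Nat.find_min (hex i) ht⟩
  let l : ℕ → ℕ := fun m => Nat.rec (Nat.pair (st 0) (2 * e + 1))
    (fun m IH => Nat.pair (st (m + 1)) IH) m
  have l0 : l 0 = Nat.pair (st 0) (2 * e + 1) := rfl
  have lS : ∀ m, l (m + 1) = Nat.pair (st (m + 1)) (l m) := fun m => rfl
  have hl : Computable l := by
    refine Computable.nat_rec (f := fun m : ℕ => m)
      (g := fun _ => Nat.pair (st 0) (2 * e + 1))
      (h := fun _ (q : ℕ × ℕ) => Nat.pair (st (q.1 + 1)) q.2) Computable.id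
      (Computable.const _) ?_
    exact (Primrec₂.natPair.to_comp).comp
      (hst.comp (Computable.succ.comp (Computable.fst.comp Computable.snd)))
      (Computable.snd.comp Computable.snd)
  have hbas : ∀ m, bas m (l m) = 2 * e + 1 := by
    intro m
    induction m with
    | zero => rw [l0]; simp [bas]
    | succ m ih => rw [bas_succ, lS, tl_pair, ih]
  have hcnd : ∀ m, cnd (2 * e + 1) m (l m) := by
    intro m
    left
    refine ⟨by omega, ?_⟩
    have h2 : (2 * e + 1) / 2 = e := by omega
    rw [h2]
    cases m with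
    | zero => rw [l0, hd_pair]; exact hmin 0
    | succ m => rw [lS, hd_pair]; exact hmin (m + 1)
  have hvalid : ∀ m, valid m (l m) := by
    intro m
    induction m with
    | zero =>
      rw [valid_zero]
      have : tl (l 0) = 2 * e + 1 := by rw [l0, tl_pair]
      rw [this]
      exact hcnd 0
    | succ m ih =>
      rw [valid_succ]
      have : tl (l (m + 1)) = l m := by rw [lS, tl_pair]
      rw [this, hbas m]
      exact ⟨ih, hcnd (m + 1)⟩
  have hval : ∀ m, val m (l m) = y m := by
    intro m
    unfold val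
    rw [hbas m, if_pos (by omega)]
    have h2 : (2 * e + 1) / 2 = e := by omega
    rw [h2, he]
    have hhd : hd (l m) = st m := by
      cases m with
      | zero => rw [l0, hd_pair]
      | succ m => rw [lS, hd_pair]
    rw [hhd]
    obtain ⟨⟨v, _, hev⟩, _⟩ := hmin m
    rw [he] at hev
    have h3 : v ∈ c.eval m := Code.evaln_sound hev
    rw [hc' m] at h3
    have h4 : v = y m := by simpa using h3
    rw [hev, Option.getD_some, h4]
    exact filt_eq_self ((isVec_iff _ _).1 (hv m))
  refine ⟨fun m => 2 ^ l m, ?_, fun m => isVec_two_pow (hvalid m), ?_⟩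
  · exact primrec_pow.to_comp.comp (Computable.const 2) hl
  · intro m
    have : tl (l (m + 1)) = l m := by rw [lS, tl_pair]
    rw [Pi_two_pow, this]
    unfold theta
    rw [hval m, xor_cancel]

namespace TM

variable {M : Str theL} (h : TM M)
include h

theorem symm {m v x y : ℕ} (hxy : M.T m v x y) : M.T m v y x := by
  obtain ⟨w, hw⟩ := h.h3 m y x (h.h7 _ _ _ _ hxy) (h.h6 _ _ _ _ hxy)
  have h1 := h.h4 _ _ _ _ _ _ hxy hw
  have h2 := h.h1 _ _ _ _ h1 (h.h6 _ _ _ _ hxy)
  have h3 : v ^^^ w = 0 := by
    have := congrArg (fun t => t.unpair.2) h2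
    simpa using this
  have : v = w := Nat.xor_eq_zero_iff.1 h3
  rw [this]
  exact hw

theorem uniq {m v x y z : ℕ} (h1 : M.T m v x y) (h2 : M.T m v x z) : y = z := by
  have := h.h4 _ _ _ _ _ _ (h.symm h1) h2
  rw [Nat.xor_self] at this
  exact h.h8 _ _ _ this

theorem lev {m m' v v' x y : ℕ} (h1 : M.T m v x y) (h2 : M.T m' v' x y) : m = m' ∧ v = v' := by
  have := h.h1 _ _ _ _ h1 h2
  constructor
  · have := congrArg (fun t => t.unpair.1) this
    simpa using this
  · have := congrArg (fun t => t.unpair.2) this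
    simpa using this

end TM

theorem unique_model {M : Str theL} (hM : M.IsComputable) (hφ : Models M thePhi) :
    ∃ F : ℕ → ℕ, Computable F ∧ IsIso theA M F := by
  classical
  have h : TM M := tm_of_models hφ
  have hrel := hM.2
  have cT : ComputablePred (fun q : (ℕ × ℕ) × ℕ × ℕ => M.T q.1.1 q.1.2 q.2.1 q.2.2) := by
    refine computablePred_comp (f := fun q : (ℕ × ℕ) × ℕ × ℕ =>
      (Nat.pair q.1.1 q.1.2 + 1, [q.2.1, q.2.2])) hrel ?_
    have : Primrec (fun q : (ℕ × ℕ) × ℕ × ℕ => (Nat.pair q.1.1 q.1.2 + 1, [q.2.1, q.2.2])) := by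
      refine Primrec.pair (Primrec.succ.comp (Primrec₂.natPair.comp
        (Primrec.fst.comp Primrec.fst) (Primrec.snd.comp Primrec.fst))) ?_
      exact Primrec.list_cons.comp (Primrec.fst.comp Primrec.snd)
        (Primrec.list_cons.comp (Primrec.snd.comp Primrec.snd) (Primrec.const []))
    exact this.to_comp
  have cP : ComputablePred (fun q : ℕ × ℕ => M.P q.1 q.2) := by
    refine computablePred_comp (f := fun q : ℕ × ℕ => (0, [q.1, q.2])) hrel ?_
    have : Primrec (fun q : ℕ × ℕ => (0, [q.1, q.2])) :=
      Primrec.pair (Primrec.const 0) (Primrec.list_cons.comp Primrec.fst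
        (Primrec.list_cons.comp Primrec.snd (Primrec.const [])))
    exact this.to_comp
  -- base points
  have eb : ∀ m, ∃ x, M.T m 0 x x := h.h2
  let b : ℕ → ℕ := fun m => Nat.find (eb m)
  have hb : ∀ m, M.T m 0 (b m) (b m) := fun m => Nat.find_spec (eb m)
  have cb : Computable b := by
    refine Computable.find (P := fun m x => M.T m 0 x x) ?_ eb
    refine computablePred_comp (f := fun q : ℕ × ℕ => ((q.1, 0), q.2, q.2)) cT ?_
    exact Computable.pair (Computable.pair Computable.fst (Computable.const 0))
      (Computable.pair Computable.snd Computable.snd)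
  have ez : ∀ m, ∃ z, M.P (b (m + 1)) z := fun m => h.h11 _ _ (hb (m + 1))
  let z : ℕ → ℕ := fun m => Nat.find (ez m)
  have hz : ∀ m, M.P (b (m + 1)) (z m) := fun m => Nat.find_spec (ez m)
  have cz : Computable z := by
    refine Computable.find (P := fun m x => M.P (b (m + 1)) x) ?_ ez
    refine computablePred_comp (f := fun q : ℕ × ℕ => (b (q.1 + 1), q.2)) cP ?_
    exact Computable.pair (cb.comp (Computable.succ.comp Computable.fst)) Computable.snd
  have ey : ∀ m, ∃ v, M.T m v (b m) (z m) := fun m =>
    h.h3 _ _ _ (hb m) (h.h10 _ _ _ (hz m) (hb (m + 1)))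
  let y : ℕ → ℕ := fun m => Nat.find (ey m)
  have hy : ∀ m, M.T m (y m) (b m) (z m) := fun m => Nat.find_spec (ey m)
  have cy : Computable y := by
    refine Computable.find (P := fun m v => M.T m v (b m) (z m)) ?_ ey
    refine computablePred_comp (f := fun q : ℕ × ℕ => ((q.1, q.2), b q.1, z q.1)) cT ?_
    exact Computable.pair (Computable.pair Computable.fst Computable.snd)
      (Computable.pair (cb.comp Computable.fst) (cz.comp Computable.fst))
  have vy : ∀ m, isVec m (y m) := fun m => h.h5' _ _ _ _ (hy m)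
  obtain ⟨x, cx, vx, hx⟩ := triv cy vy
  have eb' : ∀ m, ∃ w, M.T m (x m) (b m) w := fun m => h.h5 _ _ _ (vx m) (hb m)
  let b' : ℕ → ℕ := fun m => Nat.find (eb' m)
  have hb' : ∀ m, M.T m (x m) (b m) (b' m) := fun m => Nat.find_spec (eb' m)
  have cb' : Computable b' := by
    refine Computable.find (P := fun m w => M.T m (x m) (b m) w) ?_ eb'
    refine computablePred_comp (f := fun q : ℕ × ℕ => ((q.1, x q.1), b q.1, q.2)) cT ?_
    exact Computable.pair (Computable.pair Computable.fst (cx.comp Computable.fst))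
      (Computable.pair (cb.comp Computable.fst) Computable.snd)
  have hlev : ∀ m, M.T m 0 (b' m) (b' m) := fun m => h.h7 _ _ _ _ (hb' m)
  -- the new base points are compatible
  have hcompat : ∀ m, M.P (b' (m + 1)) (b' m) := by
    intro m
    obtain ⟨w, hw⟩ := h.h11 _ _ (hlev (m + 1))
    have h1 := h.h12 _ _ _ _ _ _ (hb' (m + 1)) (hz m) hw
    have h2 := h.h4 _ _ _ _ _ _ (hy m) h1
    have h3 : y m ^^^ Pi m (x (m + 1)) = x m := by
      rw [hx m, Nat.xor_assoc, Nat.xor_self, Nat.xor_zero]
    rw [h3] at h2
    have h4 := h.uniq h2 (hb' m)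
    rw [← h4]
    exact hw
  -- the isomorphism
  have eF : ∀ n : ℕ, ∃ w, ¬ isVec n.unpair.1 n.unpair.2 ∨
      M.T n.unpair.1 n.unpair.2 (b' n.unpair.1) w := by
    intro n
    by_cases hn : isVec n.unpair.1 n.unpair.2
    · obtain ⟨w, hw⟩ := h.h5 _ _ _ hn (hlev n.unpair.1)
      exact ⟨w, Or.inr hw⟩
    · exact ⟨0, Or.inl hn⟩
  let F : ℕ → ℕ := fun n => Nat.find (eF n)
  have hF : ∀ n, isVec n.unpair.1 n.unpair.2 →
      M.T n.unpair.1 n.unpair.2 (b' n.unpair.1) (F n) := by
    intro n hn
    rcases Nat.find_spec (eF n) with h1 | h1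
    · exact absurd hn h1
    · exact h1
  have cF : Computable F := by
    refine Computable.find (P := fun (n w : ℕ) => ¬ isVec n.unpair.1 n.unpair.2 ∨
      M.T n.unpair.1 n.unpair.2 (b' n.unpair.1) w) ?_ eF
    have c1 : ComputablePred (fun q : ℕ × ℕ => isVec q.1.unpair.1 q.1.unpair.2) := by
      have : PrimrecPred (fun q : ℕ × ℕ => isVec q.1.unpair.1 q.1.unpair.2) :=
        primrec_isVec.comp (Primrec.fst.comp (Primrec.unpair.comp Primrec.fst))
          (Primrec.snd.comp (Primrec.unpair.comp Primrec.fst))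
      exact this.computablePred
    have c2 : ComputablePred (fun q : ℕ × ℕ =>
        M.T q.1.unpair.1 q.1.unpair.2 (b' q.1.unpair.1) q.2) := by
      refine computablePred_comp (f := fun q : ℕ × ℕ =>
        ((q.1.unpair.1, q.1.unpair.2), b' q.1.unpair.1, q.2)) cT ?_
      have u : Computable (fun q : ℕ × ℕ => q.1.unpair) :=
        Computable.unpair.comp Computable.fst
      exact Computable.pair (Computable.pair (Computable.fst.comp u) (Computable.snd.comp u))
        (Computable.pair (cb'.comp (Computable.fst.comp u)) Computable.snd)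
    have d1 := c1.decide
    have d2 := c2.decide
    have : Computable (fun q : ℕ × ℕ =>
        (!(decide (isVec q.1.unpair.1 q.1.unpair.2))) ||
          decide (M.T q.1.unpair.1 q.1.unpair.2 (b' q.1.unpair.1) q.2)) :=
      Primrec.or.to_comp.comp (Primrec.not.to_comp.comp d1) d2
    refine (Computable.computablePred (p := fun q : ℕ × ℕ => ¬ isVec q.1.unpair.1 q.1.unpair.2 ∨
      M.T q.1.unpair.1 q.1.unpair.2 (b' q.1.unpair.1) q.2) (this.of_eq ?_))
    intro q
    simp
  have hFT : ∀ x y : ℕ, isVec x.unpair.1 x.unpair.2 → isVec y.unpair.1 y.unpair.2 →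
      x.unpair.1 = y.unpair.1 →
        M.T x.unpair.1 (x.unpair.2 ^^^ y.unpair.2) (F x) (F y) := by
    intro x y hx hy e
    have h1 := hF x hx
    have h2 := hF y hy
    rw [← e] at h2
    exact h.h4 _ _ _ _ _ _ (h.symm h1) h2
  have hFlev : ∀ x : ℕ, isVec x.unpair.1 x.unpair.2 → M.T x.unpair.1 0 (F x) (F x) :=
    fun x hx => h.h7 _ _ _ _ (hF x hx)
  have hinj : ∀ x y : ℕ, isVec x.unpair.1 x.unpair.2 → isVec y.unpair.1 y.unpair.2 →
      F x = F y → x = y := by
    intro x y hx hy e
    have h1 := hFlev x hx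
    have h2 := hFlev y hy
    rw [← e] at h2
    have e1 := (h.lev h1 h2).1
    have h3 := hF x hx
    have h4 := hF y hy
    rw [← e, ← e1] at h4
    have e2 := (h.lev h3 h4).2
    rw [← Nat.pair_unpair x, ← Nat.pair_unpair y, e1, e2]
  have hFP : ∀ x : ℕ, isVec x.unpair.1 x.unpair.2 → ∀ m, x.unpair.1 = m + 1 →
      M.P (F x) (F (Nat.pair m (Pi m x.unpair.2))) := by
    intro x hx m hm
    have h1 := hF x hx
    rw [hm] at h1
    have hx' : isVec (m + 1) x.unpair.2 := by rw [← hm]; exact hx
    obtain ⟨w, hw⟩ := h.h11 m (F x) (h.h7 _ _ _ _ h1)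
    have h2 := h.h12 _ _ _ _ _ _ h1 (hcompat m) hw
    have h3 := hF (Nat.pair m (Pi m x.unpair.2)) (by simp only [Nat.unpair_pair]; exact isVec_Pi hx')
    simp only [Nat.unpair_pair] at h3
    rw [← h.uniq h2 h3]
    exact hw
  refine ⟨F, cF, ⟨?_, ?_, ?_⟩, ?_⟩
  · intro n hn
    exact Str.T_dom2 (hF n hn)
  · intro x hx y hy e
    exact hinj x y hx hy e
  · intro w hw
    obtain ⟨m, hm⟩ := h.h0 w hw
    obtain ⟨v, hv⟩ := h.h3 _ _ _ (hlev m) hm
    have hvv := h.h5' _ _ _ _ hv
    have hd : isVec (Nat.pair m v).unpair.1 (Nat.pair m v).unpair.2 := by simpa using hvv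
    refine ⟨Nat.pair m v, hd, ?_⟩
    have h1 := hF (Nat.pair m v) hd
    simp only [Nat.unpair_pair] at h1
    exact h.uniq h1 hv
  · intro i l hl
    by_cases hlen : l.length = 2
    · match l, hlen with
      | [x, y], _ =>
        have hx : isVec x.unpair.1 x.unpair.2 := hl x (by simp)
        have hy : isVec y.unpair.1 y.unpair.2 := hl y (by simp)
        simp only [List.map_cons, List.map_nil]
        cases i with
        | zero =>
          show theA.P x y ↔ M.P (F x) (F y)
          rw [theA_P]
          constructor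
          · rintro ⟨_, h1, h2⟩
            have := hFP x hx y.unpair.1 h1
            rw [← h2, Nat.pair_unpair] at this
            exact this
          · intro hP
            obtain ⟨m, hm⟩ := h.h9 _ _ hP
            have e1 : x.unpair.1 = m + 1 := (h.lev (hFlev x hx) hm).1
            have hm' := h.h10 _ _ _ hP hm
            have e2 : y.unpair.1 = m := (h.lev (hFlev y hy) hm').1
            have h1 := hFP x hx m e1
            have h2 := h.h12 _ _ _ _ _ _ hm hP h1
            rw [Pi_zero] at h2
            have h3 := h.h8 _ _ _ h2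
            have hx' : isVec (m + 1) x.unpair.2 := by rw [← e1]; exact hx
            have h4 := hinj y _ hy (by simp only [Nat.unpair_pair]; exact isVec_Pi hx') h3
            refine ⟨hx, by omega, ?_⟩
            rw [e2]
            have := congrArg (fun t => t.unpair.2) h4
            simpa using this
        | succ t =>
          have e : Nat.pair t.unpair.1 t.unpair.2 = t := Nat.pair_unpair t
          have g1 : theA.rel (t + 1) [x, y] ↔ theA.T t.unpair.1 t.unpair.2 x y := by
            unfold Str.T
            rw [e]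
          have g2 : M.rel (t + 1) [F x, F y] ↔ M.T t.unpair.1 t.unpair.2 (F x) (F y) := by
            unfold Str.T
            rw [e]
          rw [g1, g2, theA_T]
          constructor
          · rintro ⟨_, _, h1, h2, h3⟩
            have := hFT x y hx hy (by rw [h1, h2])
            rw [h1, h3] at this
            exact this
          · intro hT
            have e1 := (h.lev (hFlev x hx) (h.h6 _ _ _ _ hT)).1
            have e2 := (h.lev (hFlev y hy) (h.h7 _ _ _ _ hT)).1
            have h1 := hFT x y hx hy (by rw [e1, e2])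
            exact ⟨hx, hy, e1, e2, (h.lev h1 hT).2⟩
    · constructor
      · intro h1
        exact absurd (theA.rel_len _ _ h1) hlen
      · intro h1
        have := M.rel_len _ _ h1
        rw [List.length_map] at this
        exact absurd this hlen

end Pool.Agent.helper63.CompStruct
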