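import Pool.Agent.helper63.CompStruct.BackForth
import Pool.Agent.helper63.CompStruct.Unique

/-!
The computable rank of `theA` is `ω₁^CK`.
-/

namespace Pool.Agent.helper63.CompStruct

open Nat.Partrec (Code)

/-! ### the separating formula -/

/-- index of the conjunction built by the program `c` for the node `τ` of level `j` -/
def Jx (c : Code) (j τ : ℕ) : ℕ :=
  Nat.pair 2 (Encodable.encode (c.curry (Nat.pair j τ)))

/-- one step of the recursion -/
def Fx (c : Code) (n : ℕ) : Option ℕ :=
  if n.unpair.2 = 0 then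
    some (Nat.pair 1 (Encodable.encode (true, 0, [n.unpair.1.unpair.1 + 1, n.unpair.1.unpair.1])))
  else if valid (n.unpair.1.unpair.1 + 1) (Nat.pair (n.unpair.2 - 1) n.unpair.1.unpair.2) then
    some (Nat.pair 5 (Jx c (n.unpair.1.unpair.1 + 1)
      (Nat.pair (n.unpair.2 - 1) n.unpair.1.unpair.2)))
  else none

theorem primrec_Jx {α : Type*} [Primcodable α] {c : α → Code} {j τ : α → ℕ} (hc : Primrec c)
    (hj : Primrec j) (hτ : Primrec τ) : Primrec (fun a => Jx (c a) (j a) (τ a)) := by
  unfold Jx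
  exact Primrec₂.natPair.comp (Primrec.const 2) (Primrec.encode.comp
    (Code.primrec₂_curry.comp hc (Primrec₂.natPair.comp hj hτ)))

theorem primrec_Fx : Primrec₂ Fx := by
  have hc : Primrec (fun p : Code × ℕ => p.1) := Primrec.fst
  have n1 : Primrec (fun p : Code × ℕ => p.2.unpair.1) :=
    Primrec.fst.comp (Primrec.unpair.comp Primrec.snd)
  have n2 : Primrec (fun p : Code × ℕ => p.2.unpair.2) :=
    Primrec.snd.comp (Primrec.unpair.comp Primrec.snd)
  have n11 : Primrec (fun p : Code × ℕ => p.2.unpair.1.unpair.1) :=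
    Primrec.fst.comp (Primrec.unpair.comp n1)
  have n12 : Primrec (fun p : Code × ℕ => p.2.unpair.1.unpair.2) :=
    Primrec.snd.comp (Primrec.unpair.comp n1)
  have nj : Primrec (fun p : Code × ℕ => p.2.unpair.1.unpair.1 + 1) := Primrec.succ.comp n11
  have nτ : Primrec (fun p : Code × ℕ => Nat.pair (p.2.unpair.2 - 1) p.2.unpair.1.unpair.2) :=
    Primrec₂.natPair.comp (Primrec.nat_sub.comp n2 (Primrec.const 1)) n12
  refine Primrec.ite (Primrec.eq.comp n2 (Primrec.const 0)) ?_ (Primrec.ite ?_ ?_ ?_)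
  · refine Primrec.option_some.comp (Primrec₂.natPair.comp (Primrec.const 1)
      (Primrec.encode.comp (Primrec.pair (Primrec.const true) (Primrec.pair (Primrec.const 0) ?_))))
    exact Primrec.list_cons.comp nj (Primrec.list_cons.comp n11 (Primrec.const []))
  · exact primrec_valid.comp nj nτ
  · exact Primrec.option_some.comp (Primrec₂.natPair.comp (Primrec.const 5) (primrec_Jx hc nj nτ))
  · exact Primrec.const none

theorem exists_fix : ∃ c : Code, ∀ n, c.eval n = (Fx c n : Part ℕ) := by
  have h : Partrec₂ (fun (c : Code) (n : ℕ) => (Fx c n : Part ℕ)) :=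
    (Computable.ofOption primrec_Fx.to_comp)
  obtain ⟨c, hc⟩ := Code.fixed_point₂ h
  exact ⟨c, fun n => by rw [hc]⟩

/-- the literal `P(x_{j+1}, x_j)` -/
def litPj (j : ℕ) : Fml theL (j + 2) :=
  Fml.rel (L := theL) true 0 (fun t : Fin 2 => if t = 0 then Fin.last (j + 1)
    else (Fin.last j).castSucc)

theorem isIndex_litPj (j : ℕ) :
    IsIndex (Nat.pair 1 (Encodable.encode (true, 0, [j + 1, j]))) (litPj j) := by
  have h := IsIndex.rel (L := theL) true 0 (fun t : Fin 2 => if t = 0 then Fin.last (j + 1)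
    else (Fin.last j).castSucc)
  have e : (List.ofFn fun t : Fin 2 => (((if t = 0 then Fin.last (j + 1)
    else (Fin.last j).castSucc : Fin (j + 2))) : ℕ)) = [j + 1, j] := by
    simp [List.ofFn_succ]
  have e2 : (List.ofFn fun t : Fin (theL.ar 0) => (((fun t : Fin 2 => if t = 0 then Fin.last (j + 1)
    else (Fin.last j).castSucc : Fin 2 → Fin (j + 2)) t) : ℕ)) = [j + 1, j] := e
  rw [e2] at h
  exact h

theorem realize_litPj (j : ℕ) (v : Fin (j + 2) → ℕ) :
    Realize theA (litPj j) v ↔ theA.P (v (Fin.last (j + 1))) (v (Fin.last j).castSucc) := by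
  show (theA.rel 0 (List.ofFn fun t : Fin 2 => v (if t = 0 then Fin.last (j + 1)
    else (Fin.last j).castSucc)) ↔ true = true) ↔ _
  have : (List.ofFn fun t : Fin 2 => v (if t = 0 then Fin.last (j + 1)
    else (Fin.last j).castSucc)) = [v (Fin.last (j + 1)), v (Fin.last j).castSucc] := by
    simp [List.ofFn_succ]
  rw [this]
  simp [Str.P]

/-- the relation defined by the `e`-th program -/
def below (e y x : ℕ) : Prop := ((prog e).eval (Nat.pair y x)).Dom

theorem below_of_valid {e j a τ : ℕ} (h : valid (j + 1) (Nat.pair a τ))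
    (hb : bas (j + 1) (Nat.pair a τ) = 2 * e) : below e a.unpair.1 (hd τ).unpair.1 := by
  have h1 := cnd_of_valid h
  rw [hb] at h1
  rcases h1 with ⟨h1, _⟩ | ⟨_, h1 | h1⟩
  · omega
  · omega
  · rw [hd_pair, tl_pair] at h1
    have h2 : 2 * e / 2 = e := by omega
    rw [h2] at h1
    obtain ⟨v, hv⟩ := Option.isSome_iff_exists.1 h1
    have := Code.evaln_sound (show v ∈ Code.evaln _ _ _ from hv)
    exact Part.dom_iff_mem.2 ⟨v, this⟩

theorem sep_formula {c : Code} (hc : ∀ n, c.eval n = (Fx c n : Part ℕ)) {e : ℕ}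
    (hwf : WellFounded (below e)) : ∀ x : ℕ, ∀ j τ : ℕ, (hd τ).unpair.1 = x → valid j τ →
      bas j τ = 2 * e → ∃ φ : Fml theL (j + 2), IsIndex (Jx c j τ) φ ∧
        (∀ v, Realize theA φ v → theA.P (v (Fin.last (j + 1))) (v (Fin.last j).castSucc)) ∧
        (∀ v, (∀ t : Fin (j + 2), v t = Nat.pair t 0) → Realize theA φ v) ∧
        (∀ v, (v (Fin.last (j + 1))).unpair.1 = j + 1 →
          isVec (j + 1) (v (Fin.last (j + 1))).unpair.2 →
          (∀ l, (v (Fin.last (j + 1))).unpair.2.testBit l = true → bas (j + 1) l % 2 = 0) →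
          (∃ l, (v (Fin.last (j + 1))).unpair.2.testBit l = true ∧ tl l = τ) →
          ¬ Realize theA φ v) := by
  classical
  intro x
  induction x using hwf.induction with
  | _ x ih =>
    intro j τ hx hτ hb
    have hch : ∀ a, valid (j + 1) (Nat.pair a τ) → ∃ φ : Fml theL (j + 1 + 2),
        IsIndex (Jx c (j + 1) (Nat.pair a τ)) φ ∧
        (∀ v, Realize theA φ v →
          theA.P (v (Fin.last (j + 1 + 1))) (v (Fin.last (j + 1)).castSucc)) ∧
        (∀ v, (∀ t : Fin (j + 1 + 2), v t = Nat.pair t 0) → Realize theA φ v) ∧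
        (∀ v, (v (Fin.last (j + 1 + 1))).unpair.1 = j + 1 + 1 →
          isVec (j + 1 + 1) (v (Fin.last (j + 1 + 1))).unpair.2 →
          (∀ l, (v (Fin.last (j + 1 + 1))).unpair.2.testBit l = true →
            bas (j + 1 + 1) l % 2 = 0) →
          (∃ l, (v (Fin.last (j + 1 + 1))).unpair.2.testBit l = true ∧ tl l = Nat.pair a τ) →
          ¬ Realize theA φ v) := by
      intro a ha
      have hba : bas (j + 1) (Nat.pair a τ) = 2 * e := by rw [bas_succ, tl_pair, hb]
      refine ih a.unpair.1 ?_ (j + 1) (Nat.pair a τ) (by rw [hd_pair]) ha hba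
      rw [← hx]
      exact below_of_valid ha hba
    choose ψ hψ1 hψ2 hψ3 hψ4 using hch
    let f : ℕ → Fml theL (j + 2) := fun k =>
      if h : valid (j + 1) (Nat.pair (k - 1) τ) then
        (if k = 0 then litPj j else Fml.ex (ψ (k - 1) h)) else litPj j
    have f0 : f 0 = litPj j := by
      show (if h : _ then (if (0 : ℕ) = 0 then litPj j else _) else litPj j) = litPj j
      by_cases h : valid (j + 1) (Nat.pair (0 - 1) τ)
      · rw [dif_pos h, if_pos rfl]
      · rw [dif_neg h]
    have fS : ∀ a (h : valid (j + 1) (Nat.pair a τ)), f (a + 1) = Fml.ex (ψ a h) := by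
      intro a h
      show (if h : valid (j + 1) (Nat.pair (a + 1 - 1) τ) then
        (if a + 1 = 0 then litPj j else Fml.ex (ψ (a + 1 - 1) h)) else litPj j) = _
      rw [dif_pos (by simpa using h), if_neg (by omega)]
      rfl
    have he : ∀ k, (c.curry (Nat.pair j τ)).eval k =
        (Fx c (Nat.pair (Nat.pair j τ) k) : Part ℕ) := by
      intro k
      rw [Code.eval_curry, hc]
    have he0 : (c.curry (Nat.pair j τ)).eval 0 =
        Part.some (Nat.pair 1 (Encodable.encode (true, 0, [j + 1, j]))) := by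
      rw [he]
      simp [Fx]
    have heS : ∀ a, (c.curry (Nat.pair j τ)).eval (a + 1) =
        (if valid (j + 1) (Nat.pair a τ) then
          Part.some (Nat.pair 5 (Jx c (j + 1) (Nat.pair a τ))) else Part.none) := by
      intro a
      rw [he]
      unfold Fx
      simp only [Nat.unpair_pair, Nat.add_sub_cancel]
      rw [if_neg (by omega)]
      by_cases h : valid (j + 1) (Nat.pair a τ)
      · rw [if_pos h, if_pos h]; rfl
      · rw [if_neg h, if_neg h]; rfl
    have hS0 : (0 : ℕ) ∈ {k | ((c.curry (Nat.pair j τ)).eval k).Dom} := by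
      show ((c.curry (Nat.pair j τ)).eval 0).Dom
      rw [he0]
      trivial
    have hSS : ∀ a, valid (j + 1) (Nat.pair a τ) →
        (a + 1) ∈ {k | ((c.curry (Nat.pair j τ)).eval k).Dom} := by
      intro a h
      show ((c.curry (Nat.pair j τ)).eval (a + 1)).Dom
      rw [heS, if_pos h]
      trivial
    have hSS' : ∀ a, (a + 1) ∈ {k | ((c.curry (Nat.pair j τ)).eval k).Dom} →
        valid (j + 1) (Nat.pair a τ) := by
      intro a h
      by_contra hn
      have h' : ((c.curry (Nat.pair j τ)).eval (a + 1)).Dom := h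
      rw [heS, if_neg hn] at h'
      exact h'
    refine ⟨Fml.conj {k | ((c.curry (Nat.pair j τ)).eval k).Dom} f, ?_, ?_, ?_, ?_⟩
    · refine IsIndex.conj (c.curry (Nat.pair j τ)) f ?_
      intro k m hm
      cases k with
      | zero =>
        rw [he0] at hm
        have : m = _ := Part.mem_some_iff.1 hm
        rw [this, f0]
        exact isIndex_litPj j
      | succ a =>
        rw [heS] at hm
        by_cases h : valid (j + 1) (Nat.pair a τ)
        · rw [if_pos h] at hm
          have : m = _ := Part.mem_some_iff.1 hm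
          rw [this, fS a h]
          exact IsIndex.ex _ _ (hψ1 a h)
        · rw [if_neg h] at hm
          exact absurd hm (Part.notMem_none _)
    · intro v hv
      have := hv 0 hS0
      rw [f0, realize_litPj] at this
      exact this
    · intro v hv k hk
      cases k with
      | zero =>
        rw [f0, realize_litPj, theA_P, hv, hv]
        simp
      | succ a =>
        have h := hSS' a hk
        rw [fS a h]
        refine ⟨Nat.pair (j + 2) 0, by rw [theA_dom]; simp, ?_⟩
        apply hψ3 a h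
        intro t
        refine Fin.lastCases ?_ (fun i => ?_) t
        · rw [Fin.snoc_last]; rfl
        · rw [Fin.snoc_castSucc, hv i]; rfl
    · intro v hl hvec heven hex hr
      obtain ⟨l, hl1, hl2⟩ := hex
      have hlv : valid (j + 1) l := (isVec_iff _ _).1 hvec l hl1
      have hle : Nat.pair (hd l) τ = l := by rw [← hl2, pair_hd_tl]
      have hvalid : valid (j + 1) (Nat.pair (hd l) τ) := by rw [hle]; exact hlv
      have h1 := hr (hd l + 1) (hSS _ hvalid)
      rw [fS _ hvalid] at h1
      obtain ⟨z, hz, h2⟩ := h1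
      have h3 := hψ2 _ hvalid _ h2
      have hw1 : (Fin.snoc (α := fun _ => ℕ) v z : Fin (j + 1 + 2) → ℕ) (Fin.last (j + 1 + 1)) = z :=
        Fin.snoc_last _ _
      have hw2 : (Fin.snoc (α := fun _ => ℕ) v z : Fin (j + 1 + 2) → ℕ)
          (Fin.last (j + 1)).castSucc = v (Fin.last (j + 1)) := Fin.snoc_castSucc _ _ _
      rw [hw1, hw2, theA_P, hl] at h3
      obtain ⟨h4, h5, h6⟩ := h3
      rw [h5] at h4
      have hkey := key h4 (by rw [← h6]; exact heven)
      obtain ⟨l', hl', hl''⟩ := child hkey (by rw [← h6]; exact hl1)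
      refine hψ4 _ hvalid _ ?_ ?_ ?_ ?_ h2
      · rw [hw1, h5]
      · rw [hw1]; exact h4
      · rw [hw1]; exact hkey
      · rw [hw1]; exact ⟨l', hl', by rw [hl'', hle]⟩

/-! ### generators of large rank -/

/-- adding one level above an even generator -/
theorem one_step {e m l y : ℕ} (hl : valid m l) (hb : bas m l = 2 * e)
    (hy : below e y (hd l).unpair.1) : ∃ l', valid (m + 1) l' ∧ bas (m + 1) l' = 2 * e ∧
      (hd l').unpair.1 = y ∧ Pi m (2 ^ l') = 2 ^ l := by
  obtain ⟨v, hv⟩ := Part.dom_iff_mem.1 hy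
  obtain ⟨s, hs⟩ := Code.evaln_complete.1 hv
  refine ⟨Nat.pair (Nat.pair y s) l, ?_, ?_, by simp, ?_⟩
  · rw [valid_succ, tl_pair, hb]
    refine ⟨hl, Or.inr ⟨by omega, Or.inr ?_⟩⟩
    have h2 : 2 * e / 2 = e := by omega
    simp only [hd_pair, tl_pair, Nat.unpair_pair, h2]
    exact Option.isSome_iff_exists.2 ⟨v, hs⟩
  · rw [bas_succ, tl_pair, hb]
  · rw [Pi_two_pow, tl_pair, theta_even (by omega)]

/-- data of a long well-ordering with a top element `0` -/
structure LongOrder (e : ℕ) (α : Ordinal.{0}) (rk : ℕ → Ordinal.{0}) : Prop where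
  wf : WellFounded (below e)
  top : rk 0 = α
  le : ∀ x, rk x ≤ α
  step : ∀ x γ, γ < rk x → ∃ a, (∀ j, below e (Nat.pair a j + 1) x) ∧
    (∀ j, rk (Nat.pair a j + 1) = γ) ∧
      (∀ i j, i < j → below e (Nat.pair a i + 1) (Nat.pair a j + 1))

theorem chain {e a : ℕ} (hdec : ∀ i j, i < j → below e (Nat.pair a i + 1) (Nat.pair a j + 1)) :
    ∀ k m l : ℕ, valid m l → bas m l = 2 * e → below e (Nat.pair a k + 1) (hd l).unpair.1 →
      ∃ l', valid (m + (k + 1)) l' ∧ bas (m + (k + 1)) l' = 2 * e ∧
        (hd l').unpair.1 = Nat.pair a 0 + 1 ∧ pr m (m + (k + 1)) (2 ^ l') = 2 ^ l := by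
  intro k
  induction k with
  | zero =>
    intro m l hl hb hy
    obtain ⟨l', h1, h2, h3, h4⟩ := one_step hl hb hy
    refine ⟨l', h1, h2, h3, ?_⟩
    rw [pr_succ (by omega), pr_self, h4]
  | succ k ih =>
    intro m l hl hb hy
    obtain ⟨l1, h1, h2, h3, h4⟩ := one_step hl hb hy
    obtain ⟨l', h5, h6, h7, h8⟩ := ih (m + 1) l1 h1 h2 (by
      rw [h3]
      exact hdec k (k + 1) (by omega))
    have e1 : m + 1 + (k + 1) = m + (k + 1 + 1) := by omega
    rw [e1] at h5 h6 h8
    refine ⟨l', h5, h6, h7, ?_⟩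
    have := Pi_pr (l := m) (M := m + (k + 1 + 1)) (by omega) (2 ^ l')
    rw [← this, h8, h4]

theorem rg_of_longOrder {e : ℕ} {α : Ordinal.{0}} {rk : ℕ → Ordinal.{0}}
    (hL : LongOrder e α rk) : ∀ β : Ordinal.{0}, ∀ m l : ℕ, valid m l → bas m l = 2 * e →
      β ≤ rk (hd l).unpair.1 → RG β m (2 ^ l) := by
  intro β
  induction β using WellFoundedLT.induction with
  | _ β ih =>
    intro m l hl hb hβ
    rw [RG_iff]
    intro γ hγ k
    cases k with
    | zero =>
      refine ⟨2 ^ l, isVec_two_pow hl, pr_self _ _, ?_⟩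
      exact ih γ hγ m l hl hb (le_trans hγ.le hβ)
    | succ k =>
      obtain ⟨a, ha1, ha2, ha3⟩ := hL.step _ _ (lt_of_lt_of_le hγ hβ)
      obtain ⟨l', h1, h2, h3, h4⟩ := chain ha3 k m l hl hb (ha1 k)
      refine ⟨2 ^ l', isVec_two_pow h1, h4, ?_⟩
      apply ih γ hγ _ _ h1 h2
      rw [h3, ha2]

theorem not_rankProp {e : ℕ} {α : Ordinal.{0}} {rk : ℕ → Ordinal.{0}}
    (hL : LongOrder e α rk) : ¬ RankProp theA α := by
  intro hR
  obtain ⟨c, hc⟩ := exists_fix
  -- the generator
  let l0 : ℕ := Nat.pair (Nat.pair 0 0) (2 * e)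
  have hv0 : valid 0 l0 := by
    rw [valid_zero]
    exact Or.inr ⟨by simp [l0], Or.inl rfl⟩
  have hb0 : bas 0 l0 = 2 * e := by simp [bas, l0]
  have hx0 : (hd l0).unpair.1 = 0 := by simp [l0]
  have hRG : RG α 0 (2 ^ l0) := rg_of_longOrder hL α 0 l0 hv0 hb0 (by rw [hx0, hL.top])
  obtain ⟨φ, h1, h2, h3, h4⟩ := sep_formula hc hL.wf 0 0 l0 hx0 hv0 hb0
  have hvec := isVec_two_pow hv0
  have key1 := hR 1 (fun _ => Nat.pair 0 0) (fun _ => Nat.pair 0 (2 ^ l0))
    (fun _ => by rw [theA_dom]; simp) (fun _ => by rw [theA_dom]; simpa using hvec) (by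
      intro ψ _ hψ hr
      have := back_forth hψ 0 (2 ^ l0) hvec hRG (fun _ => Nat.pair 0 0)
        (fun _ => by rw [theA_dom]; simp) (fun _ => by simp) hr
      have e1 : (fun _ : Fin 1 => sh 0 (2 ^ l0) (Nat.pair 0 0)) =
          fun _ => Nat.pair 0 (2 ^ l0) := by
        funext _
        unfold sh
        simp [pr_self]
      rw [e1] at this
      exact this) (Fml.ex φ) ⟨_, IsIndex.ex _ _ h1⟩
  have h5 : Realize theA (Fml.ex φ) (fun _ : Fin 1 => Nat.pair 0 0) := by
    refine ⟨Nat.pair 1 0, by rw [theA_dom]; simp, ?_⟩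
    apply h3
    intro t
    refine Fin.lastCases ?_ (fun i => ?_) t
    · rw [Fin.snoc_last]; rfl
    · rw [Fin.snoc_castSucc]
      have : i = 0 := Subsingleton.elim _ _
      subst this
      rfl
  obtain ⟨z, hz, h6⟩ := key1 h5
  have h7 := h2 _ h6
  have hw1 : (Fin.snoc (α := fun _ => ℕ) (fun _ : Fin 1 => Nat.pair 0 (2 ^ l0)) z : Fin 2 → ℕ)
      (Fin.last 1) = z := Fin.snoc_last _ _
  have hw2 : (Fin.snoc (α := fun _ => ℕ) (fun _ : Fin 1 => Nat.pair 0 (2 ^ l0)) z : Fin 2 → ℕ)
      (Fin.last 0).castSucc = Nat.pair 0 (2 ^ l0) := Fin.snoc_castSucc _ _ _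
  rw [hw1, hw2, theA_P] at h7
  simp only [Nat.unpair_pair] at h7
  obtain ⟨h8, h9, h10⟩ := h7
  rw [h9] at h8
  have hkey := key h8 (by
    rw [← h10]
    intro l hl
    rw [Nat.testBit_two_pow] at hl
    have : l0 = l := by simpa using hl
    rw [← this, hb0]
    omega)
  obtain ⟨l', hl', hl''⟩ := child (m := 0) (l := l0) hkey
    (by rw [← h10]; exact Nat.testBit_two_pow_self)
  refine h4 _ ?_ ?_ ?_ ?_ h6
  · rw [hw1, h9]
  · rw [hw1]; exact h8
  · rw [hw1]; exact hkey
  · rw [hw1]; exact ⟨l', hl', hl''⟩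

/-! ### long orders from computable ordinals -/

/-- the order on codes -/
def Qr (D : Set ℕ) (r : ℕ → ℕ → Prop) (y x : ℕ) : Prop :=
  y ≠ 0 ∧ (y - 1).unpair.1 ∈ D ∧ (x = 0 ∨ (x ≠ 0 ∧ (x - 1).unpair.1 ∈ D ∧
    (r (y - 1).unpair.1 (x - 1).unpair.1 ∨
      ((y - 1).unpair.1 = (x - 1).unpair.1 ∧ (y - 1).unpair.2 < (x - 1).unpair.2))))

theorem computablePred_and {α : Type*} [Primcodable α] {p q : α → Prop}
    (hp : ComputablePred p) (hq : ComputablePred q) : ComputablePred (fun a => p a ∧ q a) := by
  classical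
  refine Computable.computablePred (p := fun a => p a ∧ q a) ?_
  refine (Primrec.and.to_comp.comp hp.decide hq.decide).of_eq ?_
  intro a
  simp

theorem computablePred_or {α : Type*} [Primcodable α] {p q : α → Prop}
    (hp : ComputablePred p) (hq : ComputablePred q) : ComputablePred (fun a => p a ∨ q a) := by
  classical
  refine Computable.computablePred (p := fun a => p a ∨ q a) ?_
  refine (Primrec.or.to_comp.comp hp.decide hq.decide).of_eq ?_
  intro a
  simp

theorem computablePred_Qr {D : Set ℕ} {r : ℕ → ℕ → Prop}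
    (hD : ComputablePred (fun a : ℕ => a ∈ D)) (hr : ComputablePred (fun p : ℕ × ℕ => r p.1 p.2)) :
    ComputablePred (fun n : ℕ => Qr D r n.unpair.1 n.unpair.2) := by
  have u1 : Primrec (fun n : ℕ => n.unpair.1) := Primrec.fst.comp Primrec.unpair
  have u2 : Primrec (fun n : ℕ => n.unpair.2) := Primrec.snd.comp Primrec.unpair
  have y : Primrec (fun n : ℕ => (n.unpair.1 - 1).unpair) :=
    Primrec.unpair.comp (Primrec.nat_sub.comp u1 (Primrec.const 1))
  have x : Primrec (fun n : ℕ => (n.unpair.2 - 1).unpair) :=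
    Primrec.unpair.comp (Primrec.nat_sub.comp u2 (Primrec.const 1))
  have y0 : PrimrecPred (fun n : ℕ => n.unpair.1 = 0) := Primrec.eq.comp u1 (Primrec.const 0)
  have x0 : PrimrecPred (fun n : ℕ => n.unpair.2 = 0) := Primrec.eq.comp u2 (Primrec.const 0)
  unfold Qr
  refine computablePred_and y0.not.computablePred (computablePred_and
    (computablePred_comp hD (Primrec.fst.comp y).to_comp) (computablePred_or x0.computablePred
      (computablePred_and x0.not.computablePred (computablePred_and
        (computablePred_comp hD (Primrec.fst.comp x).to_comp) (computablePred_or ?_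
          (computablePred_and ?_ ?_))))))
  · exact computablePred_comp (f := fun n : ℕ =>
      ((n.unpair.1 - 1).unpair.1, (n.unpair.2 - 1).unpair.1)) hr
      (Primrec.pair (Primrec.fst.comp y) (Primrec.fst.comp x)).to_comp
  · have : PrimrecPred (fun n : ℕ => (n.unpair.1 - 1).unpair.1 = (n.unpair.2 - 1).unpair.1) :=
      Primrec.eq.comp (Primrec.fst.comp y) (Primrec.fst.comp x)
    exact this.computablePred
  · have : PrimrecPred (fun n : ℕ => (n.unpair.1 - 1).unpair.2 < (n.unpair.2 - 1).unpair.2) :=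
      Primrec.nat_lt.comp (Primrec.snd.comp y) (Primrec.snd.comp x)
    exact this.computablePred

theorem exists_longOrder {α : Ordinal.{0}} (hα : IsComputableOrdinal α) :
    ∃ e rk, LongOrder e α rk := by
  classical
  obtain ⟨D, r, hD, hr, hwo, htype⟩ := hα
  -- a program whose domain is the relation
  have hre : Partrec (fun n : ℕ => Part.assert (Qr D r n.unpair.1 n.unpair.2)
      fun _ => Part.some ()) := (computablePred_Qr hD hr).to_re
  have hre2 : Partrec (fun n : ℕ => (Part.assert (Qr D r n.unpair.1 n.unpair.2)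
      fun _ => Part.some ()).map fun _ => (0 : ℕ)) := hre.map (Computable.const 0).to₂
  obtain ⟨c, hc⟩ := Code.exists_code.1 (Partrec.nat_iff.1 hre2)
  obtain ⟨e, he⟩ : ∃ e, prog e = c := ⟨Encodable.encode c, Denumerable.ofNat_encode c⟩
  have hbelow : ∀ y x, below e y x ↔ Qr D r y x := by
    intro y x
    unfold below
    rw [he, hc]
    simp [Part.assert]
  let s : D → D → Prop := fun x y => r x y
  have : IsWellOrder D s := hwo
  let rk : ℕ → Ordinal.{0} := fun x =>
    if x = 0 then α else
      if h : (x - 1).unpair.1 ∈ D then Ordinal.typein s ⟨(x - 1).unpair.1, h⟩ else 0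
  have hrk0 : rk 0 = α := by simp [rk]
  have hrkS : ∀ a j, (h : a ∈ D) → rk (Nat.pair a j + 1) = Ordinal.typein s ⟨a, h⟩ := by
    intro a j h
    simp only [rk, Nat.add_eq_zero_iff, one_ne_zero, and_false, if_false, Nat.add_sub_cancel,
      Nat.unpair_pair]
    rw [dif_pos h]
  have htype' : Ordinal.type s = α := htype
  refine ⟨e, rk, ?_, hrk0, ?_, ?_⟩
  · -- well-foundedness
    let ρ : ℕ → Ordinal.{0} ×ₗ ℕ := fun x => toLex (rk x, (x - 1).unpair.2)
    have hsub : ∀ y x, below e y x → ρ y < ρ x := by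
      intro y x h
      rw [hbelow] at h
      obtain ⟨hy0, hyD, hx⟩ := h
      have hrky : rk y = Ordinal.typein s ⟨(y - 1).unpair.1, hyD⟩ := by
        simp only [rk]
        rw [if_neg hy0, dif_pos hyD]
      rw [Prod.Lex.lt_iff]
      rcases hx with rfl | ⟨hx0, hxD, hx⟩
      · left
        show rk y < rk 0
        rw [hrk0, hrky, ← htype']
        exact Ordinal.typein_lt_type s _
      · have hrkx : rk x = Ordinal.typein s ⟨(x - 1).unpair.1, hxD⟩ := by
          simp only [rk]
          rw [if_neg hx0, dif_pos hxD]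
        rcases hx with hx | ⟨hx1, hx2⟩
        · left
          show rk y < rk x
          rw [hrky, hrkx]
          exact (Ordinal.typein_lt_typein s).2 hx
        · right
          refine ⟨?_, hx2⟩
          show rk y = rk x
          rw [hrky, hrkx]
          congr 1
          exact Subtype.ext hx1
    exact Subrelation.wf (fun {a b} h => hsub a b h) (InvImage.wf ρ wellFounded_lt)
  · intro x
    by_cases h0 : x = 0
    · rw [h0, hrk0]
    · simp only [rk]
      rw [if_neg h0]
      split_ifs with h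
      · rw [← htype']
        exact (Ordinal.typein_lt_type s _).le
      · exact bot_le
  · intro x γ hγ
    have hle : rk x ≤ α := by
      by_cases h0 : x = 0
      · rw [h0, hrk0]
      · simp only [rk]
        rw [if_neg h0]
        split_ifs with h
        · rw [← htype']
          exact (Ordinal.typein_lt_type s _).le
        · exact bot_le
    have hγα : γ < Ordinal.type s := by rw [htype']; exact lt_of_lt_of_le hγ hle
    obtain ⟨⟨a, haD⟩, ha⟩ := Ordinal.typein_surj s hγα
    refine ⟨a, ?_, ?_, ?_⟩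
    · intro j
      rw [hbelow]
      refine ⟨by omega, by simpa using haD, ?_⟩
      by_cases h0 : x = 0
      · exact Or.inl h0
      · right
        refine ⟨h0, ?_⟩
        simp only [rk] at hγ
        rw [if_neg h0] at hγ
        split_ifs at hγ with h
        · refine ⟨h, Or.inl ?_⟩
          rw [← ha] at hγ
          have := (Ordinal.typein_lt_typein s).1 hγ
          simpa using this
        · exact absurd hγ (not_lt.2 bot_le)
    · intro j
      rw [hrkS a j haD, ha]
    · intro i j hij
      rw [hbelow]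
      refine ⟨by omega, by simpa using haD, Or.inr ⟨by omega, by simpa using haD, Or.inr ?_⟩⟩
      simpa using hij

theorem rank_theA : computableRank theA = omega1CK := by
  unfold computableRank
  have : {α | IsComputableOrdinal α ∧ RankProp theA α} = ∅ := by
    ext α
    simp only [Set.mem_ofPred_eq, Set.mem_empty_iff_false, iff_false, not_and]
    intro hα
    obtain ⟨e, rk, hL⟩ := exists_longOrder hα
    exact not_rankProp hL
  rw [this, Set.empty_union, csInf_singleton]

end Pool.Agent.helper63.CompStruct
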