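import Pool.Agent.helper63.CompStruct.Defs
import Pool.Agent.helper63.CompStruct.Comp

/-!
The language, and the computable `Π₂` sentence describing torsor towers.
-/

namespace Pool.Agent.helper63.CompStruct

open Nat.Partrec (Code)
open Primrec

/-- the language with binary relation symbols `R_0, R_1, ...` -/
def theL : CLang := ⟨fun _ => 2, Computable.const 2⟩

/-- data of a literal in the variables `x_0, ..., x_4` -/
abbrev LitD := Bool × ℕ × Fin 5 × Fin 5

/-- the literal given by the data -/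
def mkLit (q : LitD) : Fml theL 5 :=
  Nat.casesOn q.2.1 (Fml.eq q.1 q.2.2.1 q.2.2.2)
    (fun i => Fml.rel (L := theL) q.1 i (fun t : Fin 2 => if t = 0 then q.2.2.1 else q.2.2.2))

/-- index of the literal given by the data -/
def idxLit (q : LitD) : ℕ :=
  Nat.casesOn q.2.1
    (Nat.pair 0 (Encodable.encode (q.1, (q.2.2.1 : ℕ), (q.2.2.2 : ℕ))))
    (fun i => Nat.pair 1 (Encodable.encode (q.1, i, [(q.2.2.1 : ℕ), (q.2.2.2 : ℕ)])))

/-- truth of a literal -/
def litHolds (M : Str theL) (q : LitD) (v : Fin 5 → ℕ) : Prop :=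
  Nat.casesOn (motive := fun _ => Prop) q.2.1 (v q.2.2.1 = v q.2.2.2 ↔ q.1 = true)
    (fun i => (M.rel i [v q.2.2.1, v q.2.2.2] ↔ q.1 = true))

theorem isIndex_mkLit (q : LitD) : IsIndex (idxLit q) (mkLit q) := by
  obtain ⟨b, s, j, k⟩ := q
  cases s with
  | zero => exact IsIndex.eq b j k
  | succ i =>
    have h := IsIndex.rel (L := theL) b i (fun t : Fin 2 => if t = 0 then j else k)
    have e : (List.ofFn fun t : Fin 2 => (((if t = 0 then j else k : Fin 5)) : ℕ)) =
        [(j : ℕ), (k : ℕ)] := by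
      simp [List.ofFn_succ]
    have e2 : (List.ofFn fun t : Fin (theL.ar i) => (((fun t : Fin 2 =>
        if t = 0 then j else k : Fin 2 → Fin 5) t) : ℕ)) = [(j : ℕ), (k : ℕ)] := e
    rw [e2] at h
    exact h

theorem realize_mkLit (M : Str theL) (q : LitD) (v : Fin 5 → ℕ) :
    Realize M (mkLit q) v ↔ litHolds M q v := by
  obtain ⟨b, s, j, k⟩ := q
  cases s with
  | zero => exact Iff.rfl
  | succ i =>
    have e : (List.ofFn fun t : Fin 2 => v (if t = 0 then j else k)) = [v j, v k] := by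
      simp [List.ofFn_succ]
    show ((M.rel i (List.ofFn fun t : Fin 2 => v (if t = 0 then j else k))) ↔ b = true) ↔ _
    rw [e]
    exact Iff.rfl

theorem qf_mkLit (q : LitD) : IsQF (mkLit q) := by
  obtain ⟨b, s, j, k⟩ := q
  cases s with
  | zero => exact IsQF.eq b j k
  | succ i => exact IsQF.rel (L := theL) b i _

theorem primrec_idxLit : Primrec idxLit := by
  unfold idxLit
  refine Primrec.nat_casesOn (Primrec.fst.comp Primrec.snd) ?_ ?_
  · refine Primrec₂.natPair.comp (Primrec.const 0) (Primrec.encode.comp ?_)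
    refine Primrec.pair Primrec.fst (Primrec.pair ?_ ?_)
    · exact Primrec.fin_val.comp (Primrec.fst.comp (Primrec.snd.comp Primrec.snd))
    · exact Primrec.fin_val.comp (Primrec.snd.comp (Primrec.snd.comp Primrec.snd))
  · refine Primrec₂.natPair.comp (Primrec.const 1) (Primrec.encode.comp ?_)
    refine Primrec.pair (Primrec.fst.comp Primrec.fst) (Primrec.pair Primrec.snd ?_)
    refine Primrec.list_cons.comp ?_ (Primrec.list_cons.comp ?_ (Primrec.const []))
    · exact Primrec.fin_val.comp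
        (Primrec.fst.comp (Primrec.snd.comp (Primrec.snd.comp Primrec.fst)))
    · exact Primrec.fin_val.comp
        (Primrec.snd.comp (Primrec.snd.comp (Primrec.snd.comp Primrec.fst)))

/-! ### indices of infinite conjunctions and disjunctions -/

theorem exists_index_disj {g : ℕ → ℕ → ℕ} (hg : Computable₂ g) :
    ∃ h : ℕ → ℕ, Computable h ∧ ∀ (L : CLang) (n : ℕ) (p : ℕ) (f : ℕ → Fml L n),
      (∀ k, IsIndex (g p k) (f k)) → IsIndex (h p) (Fml.disj Set.univ f) := by
  have h1 : Partrec (fun x : ℕ => (Part.some (g x.unpair.1 x.unpair.2) : Part ℕ)) := by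
    have : Computable (fun x : ℕ => g x.unpair.1 x.unpair.2) :=
      hg.comp (Computable.fst.comp Computable.unpair) (Computable.snd.comp Computable.unpair)
    exact this.partrec
  obtain ⟨c, hc⟩ := Code.exists_code.1 (Partrec.nat_iff.1 h1)
  refine ⟨fun p => Nat.pair 3 (Encodable.encode (c.curry p)), ?_, ?_⟩
  · have : Primrec (fun p : ℕ => Nat.pair 3 (Encodable.encode (c.curry p))) :=
      Primrec₂.natPair.comp (Primrec.const 3)
        (Primrec.encode.comp (Code.primrec₂_curry.comp (Primrec.const c) Primrec.id))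
    exact this.to_comp
  · intro L n p f hf
    have he : ∀ k, (c.curry p).eval k = Part.some (g p k) := by
      intro k
      rw [Code.eval_curry, hc]
      simp
    have hS : {k | ((c.curry p).eval k).Dom} = Set.univ := by
      ext k
      show ((c.curry p).eval k).Dom ↔ True
      rw [he k]
      simp
    have := IsIndex.disj (c.curry p) f (by
      intro k m hm
      rw [he k] at hm
      have : m = g p k := by simpa using hm
      rw [this]
      exact hf k)
    rw [hS] at this
    exact this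

theorem exists_index_conj {L : CLang} {n : ℕ} {g : ℕ → ℕ} (hg : Computable g)
    (f : ℕ → Fml L n) (hf : ∀ k, IsIndex (g k) (f k)) :
    IsComputableInf (Fml.conj Set.univ f) := by
  obtain ⟨c, hc⟩ := Code.exists_code.1 (Partrec.nat_iff.1 hg.partrec)
  have he : ∀ k, c.eval k = Part.some (g k) := by
    intro k
    rw [hc]
    rfl
  have hS : {k | (c.eval k).Dom} = Set.univ := by
    ext k
    simp [he k]
  have := IsIndex.conj c f (by
    intro k m hm
    rw [he k] at hm
    have : m = g k := by simpa using hm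
    rw [this]
    exact hf k)
  rw [hS] at this
  exact ⟨_, this⟩

/-! ### the clauses -/

/-- the literal `T_{m,v}(x_j, x_k)` (sign `b`) -/
def litT (b : Bool) (m v : ℕ) (j k : Fin 5) : LitD := (b, Nat.pair m v + 2, j, k)
/-- the literal `P(x_j, x_k)` (sign `b`) -/
def litP (b : Bool) (j k : Fin 5) : LitD := (b, 1, j, k)
/-- the literal `x_j = x_k` -/
def litE (j k : Fin 5) : LitD := (true, 0, j, k)

/-- clauses -/
def g0 (_p k : ℕ) : LitD := litT true k 0 0 0
def g1 (p k : ℕ) : LitD :=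
  if p.unpair.1 = p.unpair.2 then litE 0 0
  else if k = 0 then (false, p.unpair.1 + 2, 0, 1) else (false, p.unpair.2 + 2, 0, 1)
def g2 (p _k : ℕ) : LitD := litT true p 0 4 4
def g3 (p k : ℕ) : LitD :=
  if k = 0 then litT false p 0 0 0 else if k = 1 then litT false p 0 1 1
  else litT true p (k - 2) 0 1
def g4 (p k : ℕ) : LitD :=
  if k = 0 then litT false p.unpair.1 p.unpair.2.unpair.1 0 1
  else if k = 1 then litT false p.unpair.1 p.unpair.2.unpair.2 1 2
  else litT true p.unpair.1 (p.unpair.2.unpair.1 ^^^ p.unpair.2.unpair.2) 0 2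
def g5 (p k : ℕ) : LitD :=
  if isVec p.unpair.1 p.unpair.2 then
    (if k = 0 then litT false p.unpair.1 0 0 0 else litT true p.unpair.1 p.unpair.2 0 4)
  else litT false p.unpair.1 p.unpair.2 0 1
def g6 (p k : ℕ) : LitD :=
  if k = 0 then litT false p.unpair.1 p.unpair.2 0 1 else litT true p.unpair.1 0 0 0
def g7 (p k : ℕ) : LitD :=
  if k = 0 then litT false p.unpair.1 p.unpair.2 0 1 else litT true p.unpair.1 0 1 1
def g8 (p k : ℕ) : LitD := if k = 0 then litT false p 0 0 1 else litE 0 1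
def g9 (_p k : ℕ) : LitD := if k = 0 then litP false 0 1 else litT true k 0 0 0
def g10 (p k : ℕ) : LitD :=
  if k = 0 then litP false 0 1 else if k = 1 then litT false (p + 1) 0 0 0
  else litT true p 0 1 1
def g11 (p k : ℕ) : LitD := if k = 0 then litT false (p + 1) 0 0 0 else litP true 0 4
def g12 (p k : ℕ) : LitD :=
  if k = 0 then litT false (p.unpair.1 + 1) p.unpair.2 0 2
  else if k = 1 then litP false 0 1
  else if k = 2 then litP false 2 3
  else litT true p.unpair.1 (Pi p.unpair.1 p.unpair.2) 1 3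

/-- all clauses -/
def G (a k : ℕ) : LitD :=
  if a.unpair.1 = 0 then g0 a.unpair.2 k
  else if a.unpair.1 = 1 then g1 a.unpair.2 k
  else if a.unpair.1 = 2 then g2 a.unpair.2 k
  else if a.unpair.1 = 3 then g3 a.unpair.2 k
  else if a.unpair.1 = 4 then g4 a.unpair.2 k
  else if a.unpair.1 = 5 then g5 a.unpair.2 k
  else if a.unpair.1 = 6 then g6 a.unpair.2 k
  else if a.unpair.1 = 7 then g7 a.unpair.2 k
  else if a.unpair.1 = 8 then g8 a.unpair.2 k
  else if a.unpair.1 = 9 then g9 a.unpair.2 k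
  else if a.unpair.1 = 10 then g10 a.unpair.2 k
  else if a.unpair.1 = 11 then g11 a.unpair.2 k
  else g12 a.unpair.2 k

/-- one clause as a sentence -/
def clause (a : ℕ) : Fml theL 0 :=
  alls (n := 0) 4 (Fml.disj Set.univ (fun k => Fml.ex (mkLit (G a k))))

/-- the sentence -/
def thePhi : Fml theL 0 := Fml.conj Set.univ clause

section prim

variable {α : Type*} [Primcodable α]

theorem primrec_litT (b : Bool) (j k : Fin 5) {f g : α → ℕ} (hf : Primrec f) (hg : Primrec g) :
    Primrec (fun a => litT b (f a) (g a) j k) := by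
  unfold litT
  refine Primrec.pair (Primrec.const b) (Primrec.pair ?_ (Primrec.const (j, k)))
  exact Primrec.nat_add.comp (Primrec₂.natPair.comp hf hg) (Primrec.const 2)

theorem primrec_G : Primrec₂ G := by
  have hp1 : Primrec (fun x : ℕ × ℕ => x.1.unpair.1) :=
    Primrec.fst.comp (Primrec.unpair.comp Primrec.fst)
  have hk : Primrec (fun x : ℕ × ℕ => x.2) := Primrec.snd
  have hp : Primrec (fun x : ℕ × ℕ => x.1) := Primrec.fst
  have e0 : PrimrecPred (fun x : ℕ × ℕ => x.2 = 0) := Primrec.eq.comp hk (Primrec.const 0)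
  have e1 : PrimrecPred (fun x : ℕ × ℕ => x.2 = 1) := Primrec.eq.comp hk (Primrec.const 1)
  have e2 : PrimrecPred (fun x : ℕ × ℕ => x.2 = 2) := Primrec.eq.comp hk (Primrec.const 2)
  have u1 : Primrec (fun x : ℕ × ℕ => x.1.unpair.1) := hp1
  have u2 : Primrec (fun x : ℕ × ℕ => x.1.unpair.2) :=
    Primrec.snd.comp (Primrec.unpair.comp Primrec.fst)
  have u21 : Primrec (fun x : ℕ × ℕ => x.1.unpair.2.unpair.1) :=
    Primrec.fst.comp (Primrec.unpair.comp u2)
  have u22 : Primrec (fun x : ℕ × ℕ => x.1.unpair.2.unpair.2) :=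
    Primrec.snd.comp (Primrec.unpair.comp u2)
  have c0 : Primrec (fun _ : ℕ × ℕ => 0) := Primrec.const 0
  have h0 : Primrec₂ g0 := primrec_litT _ _ _ hk c0
  have h1 : Primrec₂ g1 := by
    refine Primrec.ite (Primrec.eq.comp u1 u2) (Primrec.const _) (Primrec.ite e0 ?_ ?_)
    · exact Primrec.pair (Primrec.const false)
        (Primrec.pair (Primrec.nat_add.comp u1 (Primrec.const 2)) (Primrec.const (0, 1)))
    · exact Primrec.pair (Primrec.const false)
        (Primrec.pair (Primrec.nat_add.comp u2 (Primrec.const 2)) (Primrec.const (0, 1)))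
  have h2 : Primrec₂ g2 := primrec_litT _ _ _ hp c0
  have h3 : Primrec₂ g3 :=
    Primrec.ite e0 (primrec_litT _ _ _ hp c0) (Primrec.ite e1 (primrec_litT _ _ _ hp c0)
      (primrec_litT _ _ _ hp (Primrec.nat_sub.comp hk (Primrec.const 2))))
  have h4 : Primrec₂ g4 :=
    Primrec.ite e0 (primrec_litT _ _ _ u1 u21) (Primrec.ite e1 (primrec_litT _ _ _ u1 u22)
      (primrec_litT _ _ _ u1 (primrec_xor.comp u21 u22)))
  have h5 : Primrec₂ g5 :=
    Primrec.ite (primrec_isVec.comp u1 u2)
      (Primrec.ite e0 (primrec_litT _ _ _ u1 c0) (primrec_litT _ _ _ u1 u2))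
      (primrec_litT _ _ _ u1 u2)
  have h6 : Primrec₂ g6 :=
    Primrec.ite e0 (primrec_litT _ _ _ u1 u2) (primrec_litT _ _ _ u1 c0)
  have h7 : Primrec₂ g7 :=
    Primrec.ite e0 (primrec_litT _ _ _ u1 u2) (primrec_litT _ _ _ u1 c0)
  have h8 : Primrec₂ g8 := Primrec.ite e0 (primrec_litT _ _ _ hp c0) (Primrec.const _)
  have h9 : Primrec₂ g9 := Primrec.ite e0 (Primrec.const _) (primrec_litT _ _ _ hk c0)
  have hp' : Primrec (fun x : ℕ × ℕ => x.1 + 1) := Primrec.succ.comp hp
  have h10 : Primrec₂ g10 :=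
    Primrec.ite e0 (Primrec.const _) (Primrec.ite e1 (primrec_litT _ _ _ hp' c0)
      (primrec_litT _ _ _ hp c0))
  have h11 : Primrec₂ g11 :=
    Primrec.ite e0 (primrec_litT _ _ _ hp' c0) (Primrec.const _)
  have h12 : Primrec₂ g12 :=
    Primrec.ite e0 (primrec_litT _ _ _ (Primrec.succ.comp u1) u2)
      (Primrec.ite e1 (Primrec.const _) (Primrec.ite e2 (Primrec.const _)
        (primrec_litT _ _ _ u1 (primrec_Pi.comp u1 u2))))
  have ek : ∀ n : ℕ, PrimrecPred (fun x : ℕ × ℕ => x.1.unpair.1 = n) := fun n =>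
    Primrec.eq.comp hp1 (Primrec.const n)
  exact Primrec.ite (ek 0) (h0.comp u2 hk) (Primrec.ite (ek 1) (h1.comp u2 hk)
    (Primrec.ite (ek 2) (h2.comp u2 hk) (Primrec.ite (ek 3) (h3.comp u2 hk)
    (Primrec.ite (ek 4) (h4.comp u2 hk) (Primrec.ite (ek 5) (h5.comp u2 hk)
    (Primrec.ite (ek 6) (h6.comp u2 hk) (Primrec.ite (ek 7) (h7.comp u2 hk)
    (Primrec.ite (ek 8) (h8.comp u2 hk) (Primrec.ite (ek 9) (h9.comp u2 hk)
    (Primrec.ite (ek 10) (h10.comp u2 hk) (Primrec.ite (ek 11) (h11.comp u2 hk)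
    (h12.comp u2 hk))))))))))))

end prim

theorem thePhi_computable : IsComputableInf thePhi := by
  have h1 : Computable₂ (fun a k : ℕ => Nat.pair 5 (idxLit (G a k))) := by
    have : Primrec₂ (fun a k : ℕ => Nat.pair 5 (idxLit (G a k))) :=
      Primrec₂.natPair.comp (Primrec.const 5) (primrec_idxLit.comp primrec_G)
    exact this.to_comp
  obtain ⟨h, hh, hI⟩ := exists_index_disj h1
  unfold thePhi
  refine exists_index_conj
    (g := fun a => Nat.pair 4 (Nat.pair 4 (Nat.pair 4 (Nat.pair 4 (h a))))) ?_ _ ?_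
  · have hp : ∀ {f : ℕ → ℕ}, Computable f → Computable (fun a => Nat.pair 4 (f a)) := by
      intro f hf
      exact (Primrec₂.natPair.to_comp).comp (Computable.const 4) hf
    exact hp (hp (hp (hp hh)))
  · intro a
    unfold clause
    simp only [alls]
    refine IsIndex.all _ _ (IsIndex.all _ _ (IsIndex.all _ _ (IsIndex.all _ _ ?_)))
    apply hI
    intro k
    exact IsIndex.ex _ _ (isIndex_mkLit _)

theorem thePhi_level : IsLevel false 2 thePhi := by
  unfold thePhi
  refine IsLevel.pi 2 Set.univ clause (fun _ => 4)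
    (fun a => Fml.disj Set.univ (fun k => Fml.ex (mkLit (G a k)))) (fun _ => 1) ?_ ?_ ?_
  · intro a _
    rfl
  · intro a _
    norm_num
  · intro a _
    refine IsLevel.sigma 1 Set.univ (fun k => Fml.ex (mkLit (G a k))) (fun _ => 1)
      (fun k => mkLit (G a k)) (fun _ => 0) ?_ ?_ ?_
    · intro k _
      rfl
    · intro k _
      norm_num
    · intro k _
      exact IsLevel.qf _ _ _ (qf_mkLit _)

theorem models_thePhi (M : Str theL) : Models M thePhi ↔
    ∀ a : ℕ, ∀ x0 ∈ M.dom, ∀ x1 ∈ M.dom, ∀ x2 ∈ M.dom, ∀ x3 ∈ M.dom,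
      ∃ k : ℕ, ∃ x4 ∈ M.dom, litHolds M (G a k) ![x0, x1, x2, x3, x4] := by
  have hv : ∀ x0 x1 x2 x3 x4 : ℕ, (Fin.snoc (Fin.snoc (Fin.snoc (Fin.snoc (Fin.snoc
      (Fin.elim0 : Fin 0 → ℕ) x0 : Fin 1 → ℕ) x1 : Fin 2 → ℕ) x2 : Fin 3 → ℕ) x3 : Fin 4 → ℕ) x4 :
      Fin 5 → ℕ) = ![x0, x1, x2, x3, x4] := by
    intro x0 x1 x2 x3 x4
    funext t
    fin_cases t <;> rfl
  unfold Models thePhi clause
  simp only [alls, Realize, Set.mem_univ, true_and, forall_true_left, realize_mkLit]
  constructor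
  · intro h a x0 h0 x1 h1 x2 h2 x3 h3
    obtain ⟨k, x4, h4, hk⟩ := h a x0 h0 x1 h1 x2 h2 x3 h3
    refine ⟨k, x4, h4, ?_⟩
    rw [← hv]
    exact hk
  · intro h a x0 h0 x1 h1 x2 h2 x3 h3
    obtain ⟨k, x4, h4, hk⟩ := h a x0 h0 x1 h1 x2 h2 x3 h3
    refine ⟨k, x4, h4, ?_⟩
    rw [← hv] at hk
    exact hk

end Pool.Agent.helper63.CompStruct
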