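import Mathlib

/-!
The tower of `F_2`-vector spaces.  A vector is a natural number (its binary digits give a finite
set of generator codes) and addition is bitwise exclusive or.
-/

namespace Pool.Agent.helper63.CompStruct

open Nat.Partrec (Code)

/-! ### exclusive-or sums -/

/-- exclusive or of `f c` over `c < N` -/
def xs (N : ℕ) (f : ℕ → ℕ) : ℕ := Nat.rec 0 (fun c acc => acc ^^^ f c) N

@[simp] theorem xs_zero (f : ℕ → ℕ) : xs 0 f = 0 := rfl
theorem xs_succ (N : ℕ) (f : ℕ → ℕ) : xs (N + 1) f = xs N f ^^^ f N := rfl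

theorem xs_congr {N : ℕ} {f g : ℕ → ℕ} (h : ∀ c < N, f c = g c) : xs N f = xs N g := by
  induction N with
  | zero => rfl
  | succ N ih =>
    rw [xs_succ, xs_succ, ih (fun c hc => h c (by omega)), h N (by omega)]

theorem xs_xor (N : ℕ) (f g : ℕ → ℕ) : xs N (fun c => f c ^^^ g c) = xs N f ^^^ xs N g := by
  induction N with
  | zero => simp
  | succ N ih =>
    rw [xs_succ, xs_succ, xs_succ, ih]
    apply Nat.eq_of_testBit_eq
    intro i
    simp only [Nat.testBit_xor]
    cases (xs N f).testBit i <;> cases (xs N g).testBit i <;> cases (f N).testBit i <;>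
      cases (g N).testBit i <;> rfl

theorem xs_ext {N M : ℕ} {f : ℕ → ℕ} (h : N ≤ M) (hf : ∀ c, N ≤ c → f c = 0) :
    xs M f = xs N f := by
  induction M, h using Nat.le_induction with
  | base => rfl
  | succ M hM ih => rw [xs_succ, ih, hf M hM, Nat.xor_zero]

theorem xs_testBit_exists {N i : ℕ} {f : ℕ → ℕ} (h : (xs N f).testBit i = true) :
    ∃ c < N, (f c).testBit i = true := by
  induction N with
  | zero => simp at h
  | succ N ih =>
    rw [xs_succ, Nat.testBit_xor] at h
    by_cases h1 : (xs N f).testBit i = true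
    · obtain ⟨c, hc, hc'⟩ := ih h1
      exact ⟨c, by omega, hc'⟩
    · refine ⟨N, by omega, ?_⟩
      cases h2 : (f N).testBit i
      · rw [h2] at h
        simp at h1
        simp [h1] at h
      · rfl

theorem xs_testBit_false {N i : ℕ} {f : ℕ → ℕ} (h : ∀ c < N, (f c).testBit i = false) :
    (xs N f).testBit i = false := by
  by_contra hc
  have : (xs N f).testBit i = true := by simpa using hc
  obtain ⟨c, hc, hc'⟩ := xs_testBit_exists this
  rw [h c hc] at hc'
  exact absurd hc' (by simp)

theorem xs_testBit_unique {N i c₀ : ℕ} {f : ℕ → ℕ} (h₀ : c₀ < N) (h₁ : (f c₀).testBit i = true)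
    (h : ∀ c < N, c ≠ c₀ → (f c).testBit i = false) : (xs N f).testBit i = true := by
  induction N with
  | zero => omega
  | succ N ih =>
    rw [xs_succ, Nat.testBit_xor]
    by_cases hN : c₀ = N
    · subst hN
      rw [h₁, xs_testBit_false (fun c hc => h c (by omega) (by omega))]
      rfl
    · rw [ih (by omega) (fun c hc hne => h c (by omega) hne), h N (by omega) (Ne.symm hN)]
      rfl

theorem xs_single {N c₀ : ℕ} {f : ℕ → ℕ} (h₀ : c₀ < N) (h : ∀ c < N, c ≠ c₀ → f c = 0) :
    xs N f = f c₀ := by
  induction N with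
  | zero => omega
  | succ N ih =>
    rw [xs_succ]
    by_cases hN : c₀ = N
    · subst hN
      have : xs c₀ f = xs c₀ (fun _ => 0) := xs_congr (fun c hc => h c (by omega) (by omega))
      have h2 : ∀ M, xs M (fun _ => 0) = 0 := by
        intro M
        induction M with
        | zero => rfl
        | succ M ih => rw [xs_succ, ih]; rfl
      rw [this, h2, Nat.zero_xor]
    · rw [ih (by omega) (fun c hc hne => h c (by omega) hne), h N (by omega) (Ne.symm hN),
        Nat.xor_zero]

/-- linear combination: exclusive or of `g c` over the binary digits `c` of `v` -/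
def lin (g : ℕ → ℕ) (v : ℕ) : ℕ := xs v (fun c => if v.testBit c = true then g c else 0)

theorem testBit_false_of_le {v c : ℕ} (h : v ≤ c) : v.testBit c = false :=
  Nat.testBit_lt_two_pow (lt_of_le_of_lt h Nat.lt_two_pow_self)

theorem lt_of_testBit {v c : ℕ} (h : v.testBit c = true) : c < v := by
  by_contra hc
  rw [testBit_false_of_le (not_lt.mp hc)] at h
  exact absurd h (by simp)

theorem lin_eq {g : ℕ → ℕ} {v N : ℕ} (h : v ≤ N) :
    lin g v = xs N (fun c => if v.testBit c = true then g c else 0) := by
  unfold lin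
  symm
  apply xs_ext h
  intro c hc
  rw [testBit_false_of_le hc]
  simp

theorem lin_xor (g : ℕ → ℕ) (v w : ℕ) : lin g (v ^^^ w) = lin g v ^^^ lin g w := by
  have h1 : v ≤ v + w + (v ^^^ w) := by omega
  have h2 : w ≤ v + w + (v ^^^ w) := by omega
  have h3 : v ^^^ w ≤ v + w + (v ^^^ w) := by omega
  rw [lin_eq h1, lin_eq h2, lin_eq h3, ← xs_xor]
  apply xs_congr
  intro c _
  rw [Nat.testBit_xor]
  cases v.testBit c <;> cases w.testBit c <;> simp

@[simp] theorem lin_zero (g : ℕ → ℕ) : lin g 0 = 0 := rfl

theorem lin_two_pow (g : ℕ → ℕ) (c : ℕ) : lin g (2 ^ c) = g c := by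
  unfold lin
  rw [xs_single (c₀ := c) Nat.lt_two_pow_self]
  · simp [Nat.testBit_two_pow_self]
  · intro c' _ hne
    rw [Nat.testBit_two_pow_of_ne (Ne.symm hne)]
    simp

theorem lin_testBit_exists {g : ℕ → ℕ} {v i : ℕ} (h : (lin g v).testBit i = true) :
    ∃ c, v.testBit c = true ∧ (g c).testBit i = true := by
  obtain ⟨c, _, hc⟩ := xs_testBit_exists h
  by_cases hv : v.testBit c = true
  · rw [if_pos hv] at hc
    exact ⟨c, hv, hc⟩
  · rw [if_neg hv] at hc
    simp at hc

theorem lin_testBit_unique {g : ℕ → ℕ} {v i c₀ : ℕ} (h₀ : v.testBit c₀ = true)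
    (h₁ : (g c₀).testBit i = true)
    (h : ∀ c, v.testBit c = true → c ≠ c₀ → (g c).testBit i = false) :
    (lin g v).testBit i = true := by
  unfold lin
  apply xs_testBit_unique (c₀ := c₀) (lt_of_testBit h₀)
  · rw [if_pos h₀]; exact h₁
  · intro c _ hne
    by_cases hv : v.testBit c = true
    · rw [if_pos hv]; exact h c hv hne
    · rw [if_neg hv]; simp

/-- restriction of `v` to the binary digits satisfying `p` -/
def filt (p : ℕ → Prop) [DecidablePred p] (v : ℕ) : ℕ := lin (fun c => if p c then 2 ^ c else 0) v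

theorem filt_testBit (p : ℕ → Prop) [DecidablePred p] (v i : ℕ) :
    (filt p v).testBit i = true ↔ v.testBit i = true ∧ p i := by
  constructor
  · intro h
    obtain ⟨c, hc, hc'⟩ := lin_testBit_exists h
    by_cases hp : p c
    · rw [if_pos hp, Nat.testBit_two_pow] at hc'
      have : c = i := by simpa using hc'
      subst this
      exact ⟨hc, hp⟩
    · rw [if_neg hp] at hc'
      simp at hc'
  · rintro ⟨h1, h2⟩
    apply lin_testBit_unique (c₀ := i) h1
    · rw [if_pos h2]; exact Nat.testBit_two_pow_self
    · intro c _ hne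
      by_cases hp : p c
      · rw [if_pos hp]; exact Nat.testBit_two_pow_of_ne hne
      · rw [if_neg hp]; simp

theorem filt_eq_self {p : ℕ → Prop} [DecidablePred p] {v : ℕ}
    (h : ∀ c, v.testBit c = true → p c) : filt p v = v := by
  apply Nat.eq_of_testBit_eq
  intro i
  rw [Bool.eq_iff_iff, filt_testBit]
  exact ⟨fun h' => h'.1, fun h' => ⟨h', h i h'⟩⟩

/-! ### generators -/

/-- head of a code -/
def hd (c : ℕ) : ℕ := c.unpair.1
/-- tail of a code -/
def tl (c : ℕ) : ℕ := c.unpair.2

@[simp] theorem hd_pair (a c : ℕ) : hd (Nat.pair a c) = a := by simp [hd]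
@[simp] theorem tl_pair (a c : ℕ) : tl (Nat.pair a c) = c := by simp [tl]
theorem pair_hd_tl (c : ℕ) : Nat.pair (hd c) (tl c) = c := Nat.pair_unpair c

/-- the base of a code of level `m` -/
def bas (m c : ℕ) : ℕ := tl^[m + 1] c

/-- the `e`-th program -/
def prog (e : ℕ) : Code := Denumerable.ofNat Code e

/-- the `e`-th program halts on input `i` within `s` steps with a value below `s` -/
def good (e i s : ℕ) : Prop := ∃ v < s, Code.evaln s (prog e) i = some v

instance (e i s : ℕ) : Decidable (good e i s) := by unfold good; infer_instance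

/-- the least such `s` -/
def goodMin (e i s : ℕ) : Prop := good e i s ∧ ∀ t < s, ¬ good e i t

instance (e i s : ℕ) : Decidable (goodMin e i s) := by unfold goodMin; infer_instance

/-- the local condition on a code at level `i`, with base `k` -/
def cnd (k i c : ℕ) : Prop :=
  (k % 2 = 1 ∧ goodMin (k / 2) i (hd c)) ∨
  (k % 2 = 0 ∧ (i = 0 ∨
    (Code.evaln (hd c).unpair.2 (prog (k / 2))
      (Nat.pair (hd c).unpair.1 (hd (tl c)).unpair.1)).isSome = true))

instance (k i c : ℕ) : Decidable (cnd k i c) := by unfold cnd; infer_instance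

/-- `c` is (a code of) a generator of level `m` -/
def valid (m c : ℕ) : Prop := ∀ i < m + 1, cnd (bas m c) i (tl^[m - i] c)

instance (m c : ℕ) : Decidable (valid m c) := by unfold valid; infer_instance

@[simp] theorem bas_succ (m c : ℕ) : bas (m + 1) c = bas m (tl c) := by
  unfold bas
  rw [Function.iterate_succ_apply]

theorem valid_zero (c : ℕ) : valid 0 c ↔ cnd (tl c) 0 c := by
  unfold valid bas
  simp

theorem valid_succ (m c : ℕ) :
    valid (m + 1) c ↔ valid m (tl c) ∧ cnd (bas m (tl c)) (m + 1) c := by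
  unfold valid
  rw [bas_succ]
  constructor
  · intro h
    refine ⟨fun i hi => ?_, ?_⟩
    · have := h i (by omega)
      have e : m + 1 - i = (m - i) + 1 := by omega
      rw [e, Function.iterate_succ_apply] at this
      exact this
    · have := h (m + 1) (by omega)
      simpa using this
  · rintro ⟨h1, h2⟩ i hi
    by_cases hm : i = m + 1
    · subst hm
      simpa using h2
    · have e : m + 1 - i = (m - i) + 1 := by omega
      rw [e, Function.iterate_succ_apply]
      exact h1 i (by omega)

/-- `v` is a vector of level `m` -/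
def isVec (m v : ℕ) : Prop := ∀ c < v, v.testBit c = true → valid m c

instance (m v : ℕ) : Decidable (isVec m v) := by unfold isVec; infer_instance

theorem isVec_iff (m v : ℕ) : isVec m v ↔ ∀ c, v.testBit c = true → valid m c :=
  ⟨fun h c hc => h c (lt_of_testBit hc) hc, fun h c _ hc => h c hc⟩

@[simp] theorem isVec_zero (m : ℕ) : isVec m 0 := by
  rw [isVec_iff]; simp

theorem isVec_xor {m v w : ℕ} (hv : isVec m v) (hw : isVec m w) : isVec m (v ^^^ w) := by
  rw [isVec_iff] at *
  intro c hc
  rw [Nat.testBit_xor] at hc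
  by_cases h : v.testBit c = true
  · exact hv c h
  · apply hw c
    simp at h
    simpa [h] using hc

theorem isVec_two_pow {m c : ℕ} (h : valid m c) : isVec m (2 ^ c) := by
  rw [isVec_iff]
  intro c' hc'
  rw [Nat.testBit_two_pow] at hc'
  have : c = c' := by simpa using hc'
  exact this ▸ h

/-- the value attached to an odd generator -/
def val (m c : ℕ) : ℕ :=
  if bas m c % 2 = 1 then
    filt (valid m) ((Code.evaln (hd c) (prog (bas m c / 2)) m).getD 0)
  else 0

/-- the twisted generator -/
def theta (m c : ℕ) : ℕ := 2 ^ c ^^^ val m c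

/-- the projection from level `m + 1` to level `m` -/
def Pi (m v : ℕ) : ℕ := lin (fun c => theta m (tl c)) v

@[simp] theorem Pi_zero (m : ℕ) : Pi m 0 = 0 := rfl

theorem Pi_xor (m v w : ℕ) : Pi m (v ^^^ w) = Pi m v ^^^ Pi m w := lin_xor _ _ _

theorem Pi_two_pow (m c : ℕ) : Pi m (2 ^ c) = theta m (tl c) := lin_two_pow _ _

theorem val_even {m c : ℕ} (h : bas m c % 2 = 0) : val m c = 0 := by
  unfold val
  rw [if_neg (by omega)]

theorem theta_even {m c : ℕ} (h : bas m c % 2 = 0) : theta m c = 2 ^ c := by
  unfold theta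
  rw [val_even h, Nat.xor_zero]

theorem isVec_val (m c : ℕ) : isVec m (val m c) := by
  rw [isVec_iff]
  intro c' hc'
  unfold val at hc'
  split_ifs at hc' with h
  · exact ((filt_testBit _ _ _).1 hc').2
  · simp at hc'

theorem isVec_theta {m c : ℕ} (h : valid m c) : isVec m (theta m c) :=
  isVec_xor (isVec_two_pow h) (isVec_val m c)

theorem cnd_of_valid {m c : ℕ} (h : valid m c) : cnd (bas m c) m c := by
  have := h m (by omega)
  simpa using this

/-- digits of the value of a generator are smaller than the generator -/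
theorem val_lt {m c c' : ℕ} (hc : valid m c) (h : (val m c).testBit c' = true) : c' < c := by
  unfold val at h
  split_ifs at h with hodd
  · have h1 := ((filt_testBit _ _ _).1 h).1
    have h2 := cnd_of_valid hc
    rcases h2 with ⟨_, h2⟩ | ⟨h2, _⟩
    · obtain ⟨⟨v, hv, hev⟩, _⟩ := h2
      rw [hev] at h1
      simp only [Option.getD_some] at h1
      have h3 := lt_of_testBit h1
      have h4 : hd c ≤ c := Nat.unpair_left_le c
      omega
    · omega
  · simp at h

theorem theta_testBit_self {m c : ℕ} (hc : valid m c) : (theta m c).testBit c = true := by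
  unfold theta
  rw [Nat.testBit_xor, Nat.testBit_two_pow_self]
  cases h : (val m c).testBit c
  · rfl
  · exact absurd (val_lt hc h) (lt_irrefl _)

theorem theta_testBit_le {m c c' : ℕ} (hc : valid m c) (h : (theta m c).testBit c' = true) :
    c' ≤ c := by
  by_contra hlt
  rw [not_le] at hlt
  unfold theta at h
  rw [Nat.testBit_xor, Nat.testBit_two_pow_of_ne (by omega)] at h
  have : (val m c).testBit c' = true := by simpa using h
  have := val_lt hc this
  omega

theorem isVec_Pi {m v : ℕ} (h : isVec (m + 1) v) : isVec m (Pi m v) := by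
  rw [isVec_iff] at *
  intro i hi
  obtain ⟨c, hc, hc'⟩ := lin_testBit_exists hi
  have h1 := (valid_succ m c).1 (h c hc)
  exact (isVec_iff _ _).1 (isVec_theta h1.1) i hc'

/-- two odd generators of level `m + 1` with the same tail are equal -/
theorem odd_inj {m c c' : ℕ} (hc : valid (m + 1) c) (hc' : valid (m + 1) c')
    (hodd : bas (m + 1) c % 2 = 1) (h : tl c = tl c') : c = c' := by
  have h1 := ((valid_succ m c).1 hc).2
  have h2 := ((valid_succ m c').1 hc').2
  rw [bas_succ] at hodd
  rw [← h] at h2
  rcases h1 with ⟨_, h1⟩ | ⟨h1, _⟩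
  · rcases h2 with ⟨_, h2⟩ | ⟨h2, _⟩
    · have : hd c = hd c' := by
        rcases lt_trichotomy (hd c) (hd c') with hlt | heq | hgt
        · exact absurd h1.1 (h2.2 _ hlt)
        · exact heq
        · exact absurd h2.1 (h1.2 _ hgt)
      rw [← pair_hd_tl c, ← pair_hd_tl c', this, h]
    · omega
  · omega

/-- **Key lemma**: if `Pi m w` has only even digits, so has `w`. -/
theorem key {m w : ℕ} (hw : isVec (m + 1) w)
    (h : ∀ l, (Pi m w).testBit l = true → bas m l % 2 = 0) :
    ∀ c, w.testBit c = true → bas (m + 1) c % 2 = 0 := by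
  by_contra hcon
  push Not at hcon
  obtain ⟨c1, hc1, hodd1⟩ := hcon
  rw [isVec_iff] at hw
  -- maximal tail among odd digits
  have hfin : ((Finset.range w).filter
      (fun c => w.testBit c = true ∧ bas (m + 1) c % 2 ≠ 0)).Nonempty := by
    refine ⟨c1, ?_⟩
    rw [Finset.mem_filter, Finset.mem_range]
    exact ⟨lt_of_testBit hc1, hc1, hodd1⟩
  obtain ⟨c₀, hc₀, hmax⟩ := Finset.exists_max_image _ tl hfin
  rw [Finset.mem_filter] at hc₀
  obtain ⟨_, hc₀w, hc₀odd⟩ := hc₀
  have hv₀ := (valid_succ m c₀).1 (hw c₀ hc₀w)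
  have hbit : (Pi m w).testBit (tl c₀) = true := by
    refine lin_testBit_unique (g := fun c => theta m (tl c)) (c₀ := c₀) hc₀w
      (theta_testBit_self hv₀.1) ?_
    intro c hcw hne
    by_contra hb
    have hb : (theta m (tl c)).testBit (tl c₀) = true := by simpa using hb
    have hv := (valid_succ m c).1 (hw c hcw)
    by_cases hpar : bas (m + 1) c % 2 = 0
    · rw [bas_succ] at hpar
      rw [theta_even hpar, Nat.testBit_two_pow] at hb
      have he : tl c = tl c₀ := by simpa using hb
      rw [he, ← bas_succ] at hpar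
      exact hc₀odd hpar
    · have h1 := theta_testBit_le hv.1 hb
      have h2 := hmax c (by
        rw [Finset.mem_filter, Finset.mem_range]
        exact ⟨lt_of_testBit hcw, hcw, hpar⟩)
      have he : tl c = tl c₀ := le_antisymm h2 h1
      exact hne (odd_inj (hw c hcw) (hw c₀ hc₀w) (by omega) he)
  have := h _ hbit
  rw [← bas_succ] at this
  exact hc₀odd this

/-- a digit of `Pi m w` is the tail of a digit of `w` if `w` has only even digits -/
theorem child {m w l : ℕ} (h : ∀ c, w.testBit c = true → bas (m + 1) c % 2 = 0)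
    (hl : (Pi m w).testBit l = true) : ∃ c, w.testBit c = true ∧ tl c = l := by
  obtain ⟨c, hc, hc'⟩ := lin_testBit_exists hl
  refine ⟨c, hc, ?_⟩
  have := h c hc
  rw [bas_succ] at this
  rw [theta_even this, Nat.testBit_two_pow] at hc'
  simpa using hc'

end Pool.Agent.helper63.CompStruct
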